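import Mathlib

/-! # MP_b2b189_gt (S13780): integral curves -/

set_option autoImplicit false

namespace Pool.Agent.helper25.B2

open Set Filter Topology

variable {E : Type*} [NormedAddCommGroup E] [NormedSpace ℝ E]

/-- `γ` is an integral curve of the vector field `X` on the set of times `I`, with values in `Ω`. -/
def Sol (X : E → E) (Ω : Set E) (γ : ℝ → E) (I : Set ℝ) : Prop :=
  ∀ t ∈ I, γ t ∈ Ω ∧ HasDerivAt γ (X (γ t)) t

theorem Sol.mono {X : E → E} {Ω : Set E} {γ : ℝ → E} {I J : Set ℝ} (h : Sol X Ω γ I) (hJ : J ⊆ I) :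
    Sol X Ω γ J := fun t ht => h t (hJ ht)

theorem Sol.mem {X : E → E} {Ω : Set E} {γ : ℝ → E} {I : Set ℝ} (h : Sol X Ω γ I) {t : ℝ}
    (ht : t ∈ I) : γ t ∈ Ω := (h t ht).1

theorem Sol.hasDerivAt {X : E → E} {Ω : Set E} {γ : ℝ → E} {I : Set ℝ} (h : Sol X Ω γ I) {t : ℝ}
    (ht : t ∈ I) : HasDerivAt γ (X (γ t)) t := (h t ht).2

theorem Sol.continuousOn {X : E → E} {Ω : Set E} {γ : ℝ → E} {I : Set ℝ} (h : Sol X Ω γ I) :
    ContinuousOn γ I := fun t ht => (h t ht).2.continuousAt.continuousWithinAt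

/-- Translation of time. -/
theorem Sol.shift {X : E → E} {Ω : Set E} {γ : ℝ → E} {I : Set ℝ} (h : Sol X Ω γ I) (c : ℝ) :
    Sol X Ω (fun t => γ (t + c)) {t | t + c ∈ I} := by
  intro t ht
  refine ⟨(h _ ht).1, ?_⟩
  exact (h _ ht).2.comp_add_const t c

end Pool.Agent.helper25.B2
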