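import Mathlib
import Pool.Agent.helper25.B2.Sol

/-! # MP_b2b189_gt (S13780): the abstract structure near a point where two eigenvalues collide
(Lorentzian two-block).  `Np, Nm` null frame of the block, `Ne` unit eigenvector of the third eigenvalue `l`,
`s` = half sum of the two colliding eigenvalues, `a = L(Nm,Nm)`, `b = L(Np,Np)`, `a b = ((l2-l1)/2)^2`,
`u = g(Λ,Nm)`, `v = g(Λ,Np)`, `k = g(Λ,Ne)`, `cp = g(Nm,.)`, `cm = g(Np,.)`, `ce = g(Ne,.)`,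
`om = g(∇ Np, Nm)`. -/

set_option autoImplicit false

namespace Pool.Agent.helper25.B2

open Set Filter Topology

/-- Abstract block data on an open set `W` of a normed space. -/
structure Block (E : Type*) [NormedAddCommGroup E] [NormedSpace ℝ E] where
  W : Set E
  isOpen_W : IsOpen W
  Np : E → E
  Nm : E → E
  Ne : E → E
  cp : E → E →L[ℝ] ℝ
  cm : E → E →L[ℝ] ℝ
  ce : E → E →L[ℝ] ℝ
  om : E → E →L[ℝ] ℝ
  a : E → ℝ
  b : E → ℝ
  s : E → ℝ
  u : E → ℝ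
  v : E → ℝ
  h : E → ℝ
  l : E → ℝ
  k : E → ℝ
  f : E → ℝ
  smooth_Np : ∀ x ∈ W, ContDiffAt ℝ (⊤ : ℕ∞) Np x
  smooth_Nm : ∀ x ∈ W, ContDiffAt ℝ (⊤ : ℕ∞) Nm x
  smooth_Ne : ∀ x ∈ W, ContDiffAt ℝ (⊤ : ℕ∞) Ne x
  smooth_cp : ∀ x ∈ W, ContDiffAt ℝ (⊤ : ℕ∞) cp x
  smooth_cm : ∀ x ∈ W, ContDiffAt ℝ (⊤ : ℕ∞) cm x
  smooth_ce : ∀ x ∈ W, ContDiffAt ℝ (⊤ : ℕ∞) ce x
  smooth_om : ∀ x ∈ W, ContDiffAt ℝ (⊤ : ℕ∞) om x
  smooth_a : ∀ x ∈ W, ContDiffAt ℝ (⊤ : ℕ∞) a x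
  smooth_b : ∀ x ∈ W, ContDiffAt ℝ (⊤ : ℕ∞) b x
  smooth_s : ∀ x ∈ W, ContDiffAt ℝ (⊤ : ℕ∞) s x
  smooth_u : ∀ x ∈ W, ContDiffAt ℝ (⊤ : ℕ∞) u x
  smooth_v : ∀ x ∈ W, ContDiffAt ℝ (⊤ : ℕ∞) v x
  smooth_h : ∀ x ∈ W, ContDiffAt ℝ (⊤ : ℕ∞) h x
  smooth_l : ∀ x ∈ W, ContDiffAt ℝ (⊤ : ℕ∞) l x
  smooth_k : ∀ x ∈ W, ContDiffAt ℝ (⊤ : ℕ∞) k x
  smooth_f : ∀ x ∈ W, ContDiffAt ℝ (⊤ : ℕ∞) f x
  cp_Np : ∀ x ∈ W, cp x (Np x) = 1
  cp_Nm : ∀ x ∈ W, cp x (Nm x) = 0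
  cp_Ne : ∀ x ∈ W, cp x (Ne x) = 0
  cm_Np : ∀ x ∈ W, cm x (Np x) = 0
  cm_Nm : ∀ x ∈ W, cm x (Nm x) = 1
  cm_Ne : ∀ x ∈ W, cm x (Ne x) = 0
  ce_Np : ∀ x ∈ W, ce x (Np x) = 0
  ce_Nm : ∀ x ∈ W, ce x (Nm x) = 0
  ce_Ne : ∀ x ∈ W, ce x (Ne x) = 1
  da : ∀ x ∈ W, ∀ w : E, fderiv ℝ a x w = -2 * a x * om x w + 2 * u x * cp x w
  db : ∀ x ∈ W, ∀ w : E, fderiv ℝ b x w = 2 * b x * om x w + 2 * v x * cm x w
  ds : ∀ x ∈ W, ∀ w : E, fderiv ℝ s x w = u x * cm x w + v x * cp x w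
  dl : ∀ x ∈ W, ∀ w : E, fderiv ℝ l x w = 2 * k x * ce x w
  du_Np : ∀ x ∈ W, fderiv ℝ u x (Np x) = h x - om x (Np x) * u x
  dv_Nm : ∀ x ∈ W, fderiv ℝ v x (Nm x) = h x + om x (Nm x) * v x
  bracket : ∀ x ∈ W, fderiv ℝ Nm x (Np x) - fderiv ℝ Np x (Nm x) =
    -(om x (Nm x)) • Np x - (om x (Np x)) • Nm x + f x • Ne x
  P_pos : ∀ x ∈ W, 0 < (l x - s x) ^ 2 - a x * b x
  ab_nonneg : ∀ x ∈ W, 0 ≤ a x * b x
  dcp : ∀ x ∈ W, ∀ w w' : E, fderiv ℝ cp x w w' - fderiv ℝ cp x w' w =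
    -(om x w * cp x w' - om x w' * cp x w)
      - k x / ((l x - s x) ^ 2 - a x * b x) *
        (((l x - s x) * cp x w + a x * cm x w) * ce x w' - ((l x - s x) * cp x w' + a x * cm x w') * ce x w)
  dcm : ∀ x ∈ W, ∀ w w' : E, fderiv ℝ cm x w w' - fderiv ℝ cm x w' w =
    (om x w * cm x w' - om x w' * cm x w)
      - k x / ((l x - s x) ^ 2 - a x * b x) *
        (((l x - s x) * cm x w + b x * cp x w) * ce x w' - ((l x - s x) * cm x w' + b x * cp x w') * ce x w)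

namespace Block

variable {E : Type*} [NormedAddCommGroup E] [NormedSpace ℝ E]

/-- Lemma A for the block: null eigenvectors are orthogonal to `Λ`. -/
def A (B : Block E) : Prop :=
  (∀ x ∈ B.W, B.a x = 0 → B.u x = 0) ∧ (∀ x ∈ B.W, B.b x = 0 → B.v x = 0)

/-- Nonvanishing of the 2-jet of the Killing tensor at scalar points. -/
def NZ (B : Block E) : Prop :=
  ∀ x ∈ B.W, B.a x = 0 → B.b x = 0 → B.u x = 0 → B.v x = 0 → B.h x ≠ 0

/-- Exchange the two null directions. -/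
def swap (B : Block E) : Block E where
  W := B.W
  isOpen_W := B.isOpen_W
  Np := B.Nm
  Nm := B.Np
  Ne := B.Ne
  cp := B.cm
  cm := B.cp
  ce := B.ce
  om := fun x => -B.om x
  a := B.b
  b := B.a
  s := B.s
  u := B.v
  v := B.u
  h := B.h
  l := B.l
  k := B.k
  f := fun x => -B.f x
  smooth_Np := B.smooth_Nm
  smooth_Nm := B.smooth_Np
  smooth_Ne := B.smooth_Ne
  smooth_cp := B.smooth_cm
  smooth_cm := B.smooth_cp
  smooth_ce := B.smooth_ce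
  smooth_om := fun x hx => (B.smooth_om x hx).neg
  smooth_a := B.smooth_b
  smooth_b := B.smooth_a
  smooth_s := B.smooth_s
  smooth_u := B.smooth_v
  smooth_v := B.smooth_u
  smooth_h := B.smooth_h
  smooth_l := B.smooth_l
  smooth_k := B.smooth_k
  smooth_f := fun x hx => (B.smooth_f x hx).neg
  cp_Np := B.cm_Nm
  cp_Nm := B.cm_Np
  cp_Ne := B.cm_Ne
  cm_Np := B.cp_Nm
  cm_Nm := B.cp_Np
  cm_Ne := B.cp_Ne
  ce_Np := B.ce_Nm
  ce_Nm := B.ce_Np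
  ce_Ne := B.ce_Ne
  da := by
    intro x hx w
    rw [B.db x hx w]; simp
  db := by
    intro x hx w
    rw [B.da x hx w]; simp
  ds := by
    intro x hx w
    rw [B.ds x hx w]; ring
  dl := B.dl
  du_Np := by
    intro x hx
    rw [B.dv_Nm x hx]; simp
  dv_Nm := by
    intro x hx
    rw [B.du_Np x hx]; simp; ring
  bracket := by
    intro x hx
    have h := B.bracket x hx
    have h2 : fderiv ℝ B.Np x (B.Nm x) - fderiv ℝ B.Nm x (B.Np x) =
        -(-(B.om x (B.Nm x)) • B.Np x - (B.om x (B.Np x)) • B.Nm x + B.f x • B.Ne x) := by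
      rw [← h]; abel
    rw [h2]
    simp only [ContinuousLinearMap.neg_apply, neg_neg, neg_smul]
    abel
  P_pos := by
    intro x hx
    have := B.P_pos x hx
    rwa [mul_comm (B.a x)] at this
  ab_nonneg := by
    intro x hx
    have := B.ab_nonneg x hx
    rwa [mul_comm] at this
  dcp := by
    intro x hx w w'
    rw [B.dcm x hx w w', mul_comm (B.b x) (B.a x)]
    simp only [ContinuousLinearMap.neg_apply]
    ring
  dcm := by
    intro x hx w w'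
    rw [B.dcp x hx w w', mul_comm (B.b x) (B.a x)]
    simp only [ContinuousLinearMap.neg_apply]
    ring

theorem fderiv_neg_fun {F : Type*} [NormedAddCommGroup F] [NormedSpace ℝ F] (f : E → F) (x : E) :
    fderiv ℝ (fun y => -f y) x = -fderiv ℝ f x := fderiv_fun_neg

/-- Change the sign of `L`. -/
def neg (B : Block E) : Block E where
  W := B.W
  isOpen_W := B.isOpen_W
  Np := B.Np
  Nm := B.Nm
  Ne := B.Ne
  cp := B.cp
  cm := B.cm
  ce := B.ce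
  om := B.om
  a := fun x => -B.a x
  b := fun x => -B.b x
  s := fun x => -B.s x
  u := fun x => -B.u x
  v := fun x => -B.v x
  h := fun x => -B.h x
  l := fun x => -B.l x
  k := fun x => -B.k x
  f := B.f
  smooth_Np := B.smooth_Np
  smooth_Nm := B.smooth_Nm
  smooth_Ne := B.smooth_Ne
  smooth_cp := B.smooth_cp
  smooth_cm := B.smooth_cm
  smooth_ce := B.smooth_ce
  smooth_om := B.smooth_om
  smooth_a := fun x hx => (B.smooth_a x hx).neg
  smooth_b := fun x hx => (B.smooth_b x hx).neg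
  smooth_s := fun x hx => (B.smooth_s x hx).neg
  smooth_u := fun x hx => (B.smooth_u x hx).neg
  smooth_v := fun x hx => (B.smooth_v x hx).neg
  smooth_h := fun x hx => (B.smooth_h x hx).neg
  smooth_l := fun x hx => (B.smooth_l x hx).neg
  smooth_k := fun x hx => (B.smooth_k x hx).neg
  smooth_f := B.smooth_f
  cp_Np := B.cp_Np
  cp_Nm := B.cp_Nm
  cp_Ne := B.cp_Ne
  cm_Np := B.cm_Np
  cm_Nm := B.cm_Nm
  cm_Ne := B.cm_Ne
  ce_Np := B.ce_Np
  ce_Nm := B.ce_Nm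
  ce_Ne := B.ce_Ne
  da := by
    intro x hx w
    rw [fderiv_neg_fun, ContinuousLinearMap.neg_apply, B.da x hx w]; ring
  db := by
    intro x hx w
    rw [fderiv_neg_fun, ContinuousLinearMap.neg_apply, B.db x hx w]; ring
  ds := by
    intro x hx w
    rw [fderiv_neg_fun, ContinuousLinearMap.neg_apply, B.ds x hx w]; ring
  dl := by
    intro x hx w
    rw [fderiv_neg_fun, ContinuousLinearMap.neg_apply, B.dl x hx w]; ring
  du_Np := by
    intro x hx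
    rw [fderiv_neg_fun, ContinuousLinearMap.neg_apply, B.du_Np x hx]; ring
  dv_Nm := by
    intro x hx
    rw [fderiv_neg_fun, ContinuousLinearMap.neg_apply, B.dv_Nm x hx]; ring
  bracket := B.bracket
  P_pos := by
    intro x hx
    have := B.P_pos x hx
    calc 0 < (B.l x - B.s x) ^ 2 - B.a x * B.b x := this
      _ = _ := by ring
  ab_nonneg := by
    intro x hx
    have := B.ab_nonneg x hx
    linarith [neg_mul_neg (B.a x) (B.b x)]
  dcp := by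
    intro x hx w w'
    rw [B.dcp x hx w w']
    have hP : (-B.l x - -B.s x) ^ 2 - -B.a x * -B.b x = (B.l x - B.s x) ^ 2 - B.a x * B.b x := by ring
    rw [hP]; ring
  dcm := by
    intro x hx w w'
    rw [B.dcm x hx w w']
    have hP : (-B.l x - -B.s x) ^ 2 - -B.a x * -B.b x = (B.l x - B.s x) ^ 2 - B.a x * B.b x := by ring
    rw [hP]; ring

end Block

end Pool.Agent.helper25.B2
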