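import Mathlib
import Pool.Agent.helper68.B2.Defs2
import Pool.Agent.helper25.B2.Block

/-! # MP_b2b189_gt: definitions for the local tensor calculus modules -/

set_option autoImplicit false

namespace Pool.Agent.helper68.B2

open scoped ContDiff Topology Matrix
open Matrix Set Filter

/-- open cones not containing the origin -/
structure OCone (W : Set E4) : Prop where
  isOpen : IsOpen W
  zero : (0 : E4) ∉ W
  smul : ∀ x ∈ W, ∀ t : ℝ, 0 < t → t • x ∈ W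

/-- `T` is a smooth root field of the simple eigenvalue `μ` on the open cone `W`, with sign `σ`:
`adj (L - μ) = σ T ⊗ T♭`. -/
structure IsRoot (S : Geo) (W : Set E4) (μ : E4 → ℝ) (σ : ℝ) (T : E4 → V3) : Prop where
  cone : OCone W
  homμ : Hom μ
  homT : Hom T
  smμ : ContDiffOn ℝ ∞ μ W
  smT : ContDiffOn ℝ ∞ T W
  sign : σ = 1 ∨ σ = -1
  root : ∀ x ∈ W, (S.L x - μ x • (1 : M3)).det = 0
  simple : ∀ x ∈ W, (S.L x - μ x • (1 : M3)).adjugate.trace ≠ 0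
  adj : ∀ x ∈ W, (S.L x - μ x • (1 : M3)).adjugate = σ • vecMulVec (T x) (S.G x *ᵥ T x)

/-- the form `T♭ / g(T,T)` -/
noncomputable def theta (S : Geo) (T : E4 → V3) : E4 → E4 →L[ℝ] ℝ :=
  form fun y => (S.g y (T y) (T y))⁻¹ • (S.G y *ᵥ T y)

/-- principal null vector -/
structure IsCyc (S : Geo) (x : E4) (A : V3) : Prop where
  aa : S.g x A A = 0
  la : S.g x (S.L x *ᵥ A) A = 0
  lla : S.g x (S.L x *ᵥ (S.L x *ᵥ A)) A = 1

/-- the abstract block data `B` come from the geometry `S` and the frame `z, n, e` -/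
structure BlockOf (S : Geo) (B : Pool.Agent.helper25.B2.Block E4) (z n e : E4 → V3) : Prop where
  cone : OCone B.W
  homz : Hom z
  homn : Hom n
  home : Hom e
  smz : ContDiffOn ℝ ∞ z B.W
  smn : ContDiffOn ℝ ∞ n B.W
  sme : ContDiffOn ℝ ∞ e B.W
  frame : ∀ x ∈ B.W, NFrame (S.G x) (z x) (n x) (e x)
  Np : ∀ x ∈ B.W, B.Np x = fld (z x) x
  Nm : ∀ x ∈ B.W, B.Nm x = fld (n x) x
  Ne : ∀ x ∈ B.W, B.Ne x = fld (e x) x
  cp : ∀ x ∈ B.W, ∀ w, B.cp x w = S.g x (n x) (comps x w)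
  cm : ∀ x ∈ B.W, ∀ w, B.cm x w = S.g x (z x) (comps x w)
  ce : ∀ x ∈ B.W, ∀ w, B.ce x w = S.g x (e x) (comps x w)
  Lz : ∀ x ∈ B.W, S.L x *ᵥ z x = B.s x • z x + B.b x • n x
  Ln : ∀ x ∈ B.W, S.L x *ᵥ n x = B.s x • n x + B.a x • z x
  Le : ∀ x ∈ B.W, S.L x *ᵥ e x = B.l x • e x
  u : ∀ x ∈ B.W, B.u x = S.g x (S.lam x) (n x)
  v : ∀ x ∈ B.W, B.v x = S.g x (S.lam x) (z x)
  k : ∀ x ∈ B.W, B.k x = S.g x (S.lam x) (e x)
  h : ∀ x ∈ B.W, B.h x = ((S.Lam x).trace - S.g x (S.Lam x *ᵥ e x) (e x)) / 2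
    - B.k x ^ 2 * (B.l x - B.s x) / ((B.l x - B.s x) ^ 2 - B.a x * B.b x)
  homs : ∀ x ∈ B.W, ∀ t : ℝ, 0 < t → B.s (t • x) = B.s x ∧ B.l (t • x) = B.l x ∧
    B.a (t • x) = B.a x ∧ B.b (t • x) = B.b x

end Pool.Agent.helper68.B2
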