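import Mathlib
import Pool.Agent.helper25.B2.Sol
import Pool.Agent.helper25.B2.TDefs

/-! # MP_b2b189_gt: definitions for the global modules -/

set_option autoImplicit false

namespace Pool.Agent.helper68.B2

open scoped ContDiff Topology Matrix
open Matrix Set Filter

/-- Sorted eigenvalue functions `μ ≤ ν ≤ ρ` such that `adj (L - μ)` vanishes nowhere, with its global root
`T`, and the exclusion results which are already proved (Lemma A, no points with `(L-c)^2 = 0`). -/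
structure Srt (S : Geo) where
  μ : E4 → ℝ
  ν : E4 → ℝ
  ρ : E4 → ℝ
  cμ : ContinuousOn μ {0}ᶜ
  cν : ContinuousOn ν {0}ᶜ
  cρ : ContinuousOn ρ {0}ᶜ
  hμ : Hom μ
  hν : Hom ν
  hρ : Hom ρ
  fac : ∀ x, x ≠ 0 → RR3 (S.L x) (μ x) (ν x) (ρ x)
  le₁ : ∀ x, x ≠ 0 → μ x ≤ ν x
  le₂ : ∀ x, x ≠ 0 → ν x ≤ ρ x
  T : E4 → V3
  sg : ℝ
  hsg : sg = 1 ∨ sg = -1
  cT : ContinuousOn T {0}ᶜ
  hT : Hom T
  T0 : ∀ x, x ≠ 0 → T x ≠ 0
  KT : ∀ x, x ≠ 0 → S.Ku (μ x) x = sg • vecMulVec (T x) (T x)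
  lemA : ∀ x, x ≠ 0 → ∀ z : V3, z ≠ 0 → S.g x z z = 0 → ∀ m : ℝ, S.L x *ᵥ z = m • z →
    S.g x (S.lam x) z = 0
  nosq : ∀ x, x ≠ 0 → ∀ c : ℝ, (S.L x - c • (1 : M3)) * (S.L x - c • (1 : M3)) ≠ 0

namespace Srt

variable {S : Geo} (R : Srt S)

/-- the open cone where `μ` is simple -/
def Om : Set E4 := {x | x ≠ 0 ∧ R.μ x < R.ν x}

/-- the vector field on `ℝ⁴` of the root field `T` -/
noncomputable def X (x : E4) : E4 := fld (R.T x) x

open Classical in
/-- the constant eigenvalue of the component -/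
noncomputable def chat (x : E4) : ℝ :=
  if R.μ x = R.ν x then R.μ x
  else if ∀ y ∈ connectedComponentIn R.Om x, R.μ y = R.μ x then R.μ x else R.ν x

end Srt

/-- complexification of a real matrix -/
noncomputable def cM (A : M3) : Matrix (Fin 3) (Fin 3) ℂ := A.map (algebraMap ℝ ℂ)

end Pool.Agent.helper68.B2
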