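import Mathlib
import Pool.Agent.helper25.B2.GDefs
import Pool.Agent.helper22.B2.G0
import Pool.Agent.helper97.B2.T3b
import Pool.Agent.helper9.B2.T1a
import Pool.Agent.helper71.B2.T2a

/-! # MP_b2b189_gt: wave G, module TC: functions along integral curves of the root field -/

set_option autoImplicit false

namespace Pool.Agent.helper68.B2

open scoped ContDiff Topology Matrix
open Matrix Set Filter
open Pool.Agent.helper25.B2 (Sol)

theorem TC_const {f : ℝ → ℝ} {I : Set ℝ} (hI : I.OrdConnected) (h : ∀ t ∈ I, HasDerivAt f 0 t) {t t' : ℝ}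
    (ht : t ∈ I) (ht' : t' ∈ I) : f t = f t' := by
  have h1 := (OrdConnected.convex hI).norm_image_sub_le_of_norm_hasDerivWithin_le (f := f) (f' := fun _ => 0)
    (C := 0) (fun x hx => (h x hx).hasDerivWithinAt) (fun x _ => by simp) ht' ht
  rw [zero_mul] at h1
  have h2 : ‖f t - f t'‖ = 0 := le_antisymm h1 (norm_nonneg _)
  exact sub_eq_zero.1 (norm_eq_zero.1 h2)

theorem TC_pair {a b a' b' : ℝ} (h : a ≤ b) (h' : a' ≤ b') (h1 : a + b = a' + b')
    (h2 : a ^ 2 + b ^ 2 = a' ^ 2 + b' ^ 2) : a = a' ∧ b = b' := by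
  have h3 : (b - a) ^ 2 = (b' - a') ^ 2 := by
    have e1 : (b - a) ^ 2 = 2 * (a ^ 2 + b ^ 2) - (a + b) ^ 2 := by ring
    have e2 : (b' - a') ^ 2 = 2 * (a' ^ 2 + b' ^ 2) - (a' + b') ^ 2 := by ring
    rw [e1, e2, h1, h2]
  have h4 : b - a = b' - a' := by
    have := (sq_eq_sq₀ (sub_nonneg.2 h) (sub_nonneg.2 h')).1 h3
    exact this
  constructor <;> linarith

namespace Srt

variable {S : Geo} (R : Srt S)

/-- derivative of a function along an integral curve of `X` -/
theorem TC_along {f : E4 → ℝ} {γ : ℝ → E4} {I : Set ℝ} (hγ : Sol R.X R.Om γ I) {t : ℝ} (ht : t ∈ I)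
    (hf : DifferentiableAt ℝ f (γ t)) :
    HasDerivAt (fun s => f (γ s)) (Dv f (R.T (γ t)) (γ t)) t :=
  hf.hasFDerivAt.comp_hasDerivAt t (hγ.hasDerivAt ht)

theorem TC_ne {γ : ℝ → E4} {I : Set ℝ} (hγ : Sol R.X R.Om γ I) {t : ℝ} (ht : t ∈ I) : γ t ≠ 0 :=
  (hγ.mem ht).1

theorem TC_Dmu {x : E4} (hx : x ∈ R.Om) : Dv R.μ (R.T x) x = 2 * S.g x (S.lam x) (R.T x) := by
  obtain ⟨-, -, h3, h4⟩ := T3_eig S R.isRoot hx (R.T x)
  rw [h4]
  field_simp

theorem TC_diff_mu {x : E4} (hx : x ∈ R.Om) : DifferentiableAt ℝ R.μ x :=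
  ((R.isRoot.smμ).contDiffAt (R.isRoot.cone.isOpen.mem_nhds hx)).differentiableAt (by simp)

theorem curve_mu {γ : ℝ → E4} {I : Set ℝ} (hγ : Sol R.X R.Om γ I) {t : ℝ} (ht : t ∈ I) :
    HasDerivAt (fun s => R.μ (γ s)) (2 * S.g (γ t) (S.lam (γ t)) (R.T (γ t))) t := by
  have h := R.TC_along hγ ht (R.TC_diff_mu (hγ.mem ht))
  rwa [R.TC_Dmu (hγ.mem ht)] at h

omit R in
theorem TC_diff_L {x : E4} (hx : x ≠ 0) : DifferentiableAt ℝ S.L x :=
  (ContDiffOn.contDiffAt S.smL (isOpen_compl_singleton.mem_nhds hx)).differentiableAt (by simp)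

omit R in
theorem TC_diff_tr {x : E4} (hx : x ≠ 0) : DifferentiableAt ℝ (fun y => (S.L y).trace) x := by
  have h := TC_diff_L (S := S) hx
  have h1 : ∀ i j : Fin 3, DifferentiableAt ℝ (fun y => S.L y i j) x := fun i j => by
    have h2 := differentiableAt_pi.1 h i
    exact differentiableAt_pi.1 h2 j
  simp only [Matrix.trace_fin_three]
  exact ((h1 0 0).add (h1 1 1)).add (h1 2 2)

omit R in
theorem TC_diff_tr2 {x : E4} (hx : x ≠ 0) : DifferentiableAt ℝ (fun y => (S.L y * S.L y).trace) x := by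
  have h := TC_diff_L (S := S) hx
  have h1 : ∀ i j : Fin 3, DifferentiableAt ℝ (fun y => S.L y i j) x := fun i j => by
    have h2 := differentiableAt_pi.1 h i
    exact differentiableAt_pi.1 h2 j
  simp only [Matrix.trace_fin_three, Matrix.mul_apply, Fin.sum_univ_three]
  fun_prop (disch := assumption)

theorem curve_const {γ : ℝ → E4} {I : Set ℝ} (hI : I.OrdConnected) (hγ : Sol R.X R.Om γ I) {t t' : ℝ}
    (ht : t ∈ I) (ht' : t' ∈ I) :
    ‖γ t‖ = ‖γ t'‖ ∧ R.ν (γ t) = R.ν (γ t') ∧ R.ρ (γ t) = R.ρ (γ t') := by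
  constructor
  · have h1 : ∀ s ∈ I, HasDerivAt (fun s => ‖γ s‖ ^ 2) 0 s := by
      intro s hs
      have h2 := (hγ.hasDerivAt hs).norm_sq
      have h3 : inner ℝ (γ s) (R.X (γ s)) = (0 : ℝ) := T.inner_fld _ _
      rwa [h3, mul_zero] at h2
    have h4 := TC_const hI h1 ht ht'
    exact (sq_eq_sq₀ (norm_nonneg _) (norm_nonneg _)).1 h4
  · have hne : ∀ s ∈ I, γ s ≠ 0 := fun s hs => R.TC_ne hγ hs
    have e1 : ∀ s ∈ I, HasDerivAt (fun s => (S.L (γ s)).trace - R.μ (γ s)) 0 s := by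
      intro s hs
      have h1 := R.TC_along hγ hs (TC_diff_tr (S := S) (hne s hs))
      rw [d_tr S (hne s hs)] at h1
      have h2 := h1.sub (R.curve_mu hγ hs)
      rwa [sub_self] at h2
    have e2 : ∀ s ∈ I, HasDerivAt (fun s => (S.L (γ s) * S.L (γ s)).trace - R.μ (γ s) ^ 2) 0 s := by
      intro s hs
      have h1 := R.TC_along hγ hs (TC_diff_tr2 (S := S) (hne s hs))
      rw [d_tr2 S (hne s hs)] at h1
      have h2 := h1.sub ((R.curve_mu hγ hs).pow 2)
      have h3 : S.g (γ s) (S.L (γ s) *ᵥ S.lam (γ s)) (R.T (γ s))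
          = R.μ (γ s) * S.g (γ s) (S.lam (γ s)) (R.T (γ s)) := by
        rw [T.g_L S (hne s hs), (T3_eig S R.isRoot (hγ.mem hs) (R.T (γ s))).1]
        simp only [Geo.g, bil, Matrix.mulVec_smul, dotProduct_smul, smul_eq_mul]
      have h4 : 4 * S.g (γ s) (S.L (γ s) *ᵥ S.lam (γ s)) (R.T (γ s))
          - (2 : ℕ) * R.μ (γ s) ^ (2 - 1) * (2 * S.g (γ s) (S.lam (γ s)) (R.T (γ s))) = 0 := by
        rw [h3]; push_cast; ring
      rw [h4] at h2
      exact h2
    have f1 := TC_const hI e1 ht ht'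
    have f2 := TC_const hI e2 ht ht'
    simp only [R.tr_L (hne t ht), R.tr_L (hne t' ht')] at f1
    simp only [R.tr_L2 (hne t ht), R.tr_L2 (hne t' ht')] at f2
    exact TC_pair (R.le₂ _ (hne t ht)) (R.le₂ _ (hne t' ht')) (by linarith) (by linarith)

/-- Gronwall for `w - μ`, `w` the constant value of `ν` or `ρ` -/
theorem curve_gronwall {γ : ℝ → E4} {I : Set ℝ} (hI : I.OrdConnected) (hγ : Sol R.X R.Om γ I) {C w : ℝ}
    (hC : 0 ≤ C) (hw : ∀ t ∈ I, R.μ (γ t) ≤ w)
    (hb : ∀ t ∈ I, |S.g (γ t) (S.lam (γ t)) (R.T (γ t))| ≤ C * (w - R.μ (γ t))) {t t' : ℝ}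
    (ht : t ∈ I) (ht' : t' ∈ I) :
    w - R.μ (γ t') ≤ (w - R.μ (γ t)) * Real.exp (2 * C * |t' - t|) := by
  have hf : ∀ s ∈ I, HasDerivAt (fun s => w - R.μ (γ s)) (-(2 * S.g (γ s) (S.lam (γ s)) (R.T (γ s)))) s :=
    fun s hs => (R.curve_mu hγ hs).const_sub w
  rcases le_total t t' with h | h
  · rw [abs_of_nonneg (sub_nonneg.2 h)]
    have hsub : Icc t t' ⊆ I := hI.out ht ht'
    have hd : ∀ s ∈ Icc t t', HasDerivAt (fun s => (w - R.μ (γ s)) * Real.exp (-(2 * C * (s - t))))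
        (-(2 * S.g (γ s) (S.lam (γ s)) (R.T (γ s))) * Real.exp (-(2 * C * (s - t))) +
          (w - R.μ (γ s)) * (Real.exp (-(2 * C * (s - t))) * -(2 * C))) s := by
      intro s hs
      have h1 : HasDerivAt (fun s : ℝ => -(2 * C * (s - t))) (-(2 * C)) s := by
        have := (((hasDerivAt_id s).sub_const t).const_mul (2 * C)).fun_neg
        simpa using this
      exact (hf s (hsub hs)).mul h1.exp
    have hanti : AntitoneOn (fun s => (w - R.μ (γ s)) * Real.exp (-(2 * C * (s - t)))) (Icc t t') := by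
      refine antitoneOn_of_hasDerivWithinAt_nonpos (convex_Icc t t')
        (fun s hs => (hd s hs).continuousAt.continuousWithinAt)
        (fun s hs => (hd s (interior_subset hs)).hasDerivWithinAt) ?_
      intro s hs
      have hs' := interior_subset hs
      have h1 := hb s (hsub hs')
      have h2 := neg_abs_le (S.g (γ s) (S.lam (γ s)) (R.T (γ s)))
      have h3 := Real.exp_pos (-(2 * C * (s - t)))
      have : -(2 * S.g (γ s) (S.lam (γ s)) (R.T (γ s))) * Real.exp (-(2 * C * (s - t))) +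
          (w - R.μ (γ s)) * (Real.exp (-(2 * C * (s - t))) * -(2 * C))
          = -(2 * (S.g (γ s) (S.lam (γ s)) (R.T (γ s)) + C * (w - R.μ (γ s)))) *
            Real.exp (-(2 * C * (s - t))) := by ring
      rw [this]
      have h4 : 0 ≤ S.g (γ s) (S.lam (γ s)) (R.T (γ s)) + C * (w - R.μ (γ s)) := by linarith
      nlinarith
    have h5 := hanti (left_mem_Icc.2 h) (right_mem_Icc.2 h) h
    simp only [sub_self, mul_zero, neg_zero, Real.exp_zero, mul_one] at h5
    have h6 : (w - R.μ (γ t')) * Real.exp (-(2 * C * (t' - t))) * Real.exp (2 * C * (t' - t))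
        ≤ (w - R.μ (γ t)) * Real.exp (2 * C * (t' - t)) :=
      mul_le_mul_of_nonneg_right h5 (Real.exp_pos _).le
    rwa [mul_assoc, ← Real.exp_add, neg_add_cancel, Real.exp_zero, mul_one] at h6
  · rw [abs_of_nonpos (sub_nonpos.2 h)]
    have hsub : Icc t' t ⊆ I := hI.out ht' ht
    have hd : ∀ s ∈ Icc t' t, HasDerivAt (fun s => (w - R.μ (γ s)) * Real.exp (2 * C * (s - t)))
        (-(2 * S.g (γ s) (S.lam (γ s)) (R.T (γ s))) * Real.exp (2 * C * (s - t)) +
          (w - R.μ (γ s)) * (Real.exp (2 * C * (s - t)) * (2 * C))) s := by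
      intro s hs
      have h1 : HasDerivAt (fun s : ℝ => 2 * C * (s - t)) (2 * C) s := by
        have := ((hasDerivAt_id s).sub_const t).const_mul (2 * C)
        simpa using this
      exact (hf s (hsub hs)).mul h1.exp
    have hmono : MonotoneOn (fun s => (w - R.μ (γ s)) * Real.exp (2 * C * (s - t))) (Icc t' t) := by
      refine monotoneOn_of_hasDerivWithinAt_nonneg (convex_Icc t' t)
        (fun s hs => (hd s hs).continuousAt.continuousWithinAt)
        (fun s hs => (hd s (interior_subset hs)).hasDerivWithinAt) ?_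
      intro s hs
      have hs' := interior_subset hs
      have h1 := hb s (hsub hs')
      have h2 := le_abs_self (S.g (γ s) (S.lam (γ s)) (R.T (γ s)))
      have h3 := Real.exp_pos (2 * C * (s - t))
      have : -(2 * S.g (γ s) (S.lam (γ s)) (R.T (γ s))) * Real.exp (2 * C * (s - t)) +
          (w - R.μ (γ s)) * (Real.exp (2 * C * (s - t)) * (2 * C))
          = 2 * (C * (w - R.μ (γ s)) - S.g (γ s) (S.lam (γ s)) (R.T (γ s))) *
            Real.exp (2 * C * (s - t)) := by ring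
      rw [this]
      have h4 : 0 ≤ C * (w - R.μ (γ s)) - S.g (γ s) (S.lam (γ s)) (R.T (γ s)) := by linarith
      positivity
    have h5 := hmono (left_mem_Icc.2 h) (right_mem_Icc.2 h) h
    simp only [sub_self, mul_zero, Real.exp_zero, mul_one] at h5
    have h6 : (w - R.μ (γ t')) * Real.exp (2 * C * (t' - t)) * Real.exp (2 * C * -(t' - t))
        ≤ (w - R.μ (γ t)) * Real.exp (2 * C * -(t' - t)) :=
      mul_le_mul_of_nonneg_right h5 (Real.exp_pos _).le
    rw [mul_assoc, ← Real.exp_add, mul_neg, add_neg_cancel, Real.exp_zero, mul_one] at h6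
    rwa [mul_neg]

end Srt

end Pool.Agent.helper68.B2
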