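import Mathlib
import Pool.Agent.helper25.B2.GDefs
import Pool.Agent.helper25.B2.TC
import Pool.Agent.helper15.B2.T3c
import Pool.Agent.helper33.B2.FS

/-! # MP_b2b189_gt: wave G, module SH: shape invariance on the components of `Om` -/

set_option autoImplicit false

namespace Pool.Agent.helper68.B2

open scoped ContDiff Topology Matrix
open Matrix Set Filter
open Pool.Agent.helper25.B2 (Sol)

theorem SH_two : (2 : ℕ∞ω) ≤ ∞ := by
  have h : ((2 : ℕ∞) : ℕ∞ω) ≤ ∞ := WithTop.coe_le_coe.2 le_top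
  exact h

theorem SH_one : (1 : ℕ∞ω) ≤ ∞ := by
  have h : ((1 : ℕ∞) : ℕ∞ω) ≤ ∞ := WithTop.coe_le_coe.2 le_top
  exact h

theorem SH_mulVec {A : E4 → M3} {v : E4 → V3} {x : E4} (hA : ContDiffAt ℝ ∞ A x)
    (hv : ContDiffAt ℝ ∞ v x) : ContDiffAt ℝ ∞ (fun y => A y *ᵥ v y) x :=
  B0b_contDiffAt_bilin B0b_bil_mulVec hA hv

theorem SH_dot {v w : E4 → V3} {x : E4} (hv : ContDiffAt ℝ ∞ v x)
    (hw : ContDiffAt ℝ ∞ w x) : ContDiffAt ℝ ∞ (fun y => v y ⬝ᵥ w y) x := by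
  simp only [dotProduct]
  exact ContDiffAt.sum fun j _ => (contDiffAt_pi.1 hv j).mul (contDiffAt_pi.1 hw j)

theorem SH_form {α : E4 → V3} {x : E4} (hx : x ≠ 0) (h : ContDiffAt ℝ ∞ α x) :
    ContDiffAt ℝ ∞ (form α) x := by
  have h0 : ContDiffAt ℝ ∞ (fun y : E4 => ‖y‖ ^ 2) x := (contDiff_norm_sq ℝ).contDiffAt
  have h1 : ‖x‖ ^ 2 ≠ 0 := pow_ne_zero 2 (norm_ne_zero_iff.mpr hx)
  have e : form α = fun y => ∑ i, (α y i / ‖y‖ ^ 2) • (innerSL ℝ (J i y)) := by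
    funext y; rfl
  rw [e]
  refine ContDiffAt.sum fun i _ => ?_
  refine ContDiffAt.smul ((contDiffAt_pi.1 h i).div h0 h1) ?_
  exact ((innerSL ℝ : E4 →L[ℝ] E4 →L[ℝ] ℝ).contDiff.comp (J i).contDiff).contDiffAt

theorem SH_fld {v : E4 → V3} {x : E4} (hv : ContDiffAt ℝ ∞ v x) :
    ContDiffAt ℝ ∞ (fun y => fld (v y) y) x := by
  unfold fld
  exact ContDiffAt.sum fun i _ => (contDiffAt_pi.1 hv i).smul (J i).contDiff.contDiffAt

namespace Srt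

variable {S : Geo} (R : Srt S)

theorem SH_X {x : E4} (hx : x ∈ R.Om) : ContDiffAt ℝ ∞ R.X x :=
  SH_fld (R.isRoot.smT.contDiffAt (R.isRoot.cone.isOpen.mem_nhds hx))

theorem SH_theta {x : E4} (hx : x ∈ R.Om) : ContDiffAt ℝ ∞ (theta S R.T) x := by
  have hT := R.isRoot.smT.contDiffAt (R.isRoot.cone.isOpen.mem_nhds hx)
  have hG : ContDiffAt ℝ ∞ S.G x :=
    ContDiffOn.contDiffAt S.smG (isOpen_compl_singleton.mem_nhds hx.1)
  have h1 := SH_mulVec hG hT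
  have h2 : ContDiffAt ℝ ∞ (fun y => S.g y (R.T y) (R.T y)) x := SH_dot hT h1
  have h3 := (T3_eig S R.isRoot hx 0).2.2.1
  exact SH_form hx.1 ((h2.inv h3).smul h1)

theorem SH_theta_apply {x : E4} (hx : x ∈ R.Om) (w : E4) :
    theta S R.T x w = S.g x (R.T x) (comps x w) / S.g x (R.T x) (R.T x) := by
  unfold theta
  rw [T.form_apply, smul_dotProduct, smul_eq_mul]
  have h1 : (S.G x *ᵥ R.T x) ⬝ᵥ comps x w = S.g x (R.T x) (comps x w) := by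
    rw [T.g_symm S hx.1]
    unfold Geo.g bil
    rw [dotProduct_comm]
  rw [h1]
  ring

theorem SH_thetaX {x : E4} (hx : x ∈ R.Om) : theta S R.T x (R.X x) = 1 := by
  rw [R.SH_theta_apply hx]
  unfold Srt.X
  rw [T.comps_fld hx.1]
  exact div_self (T3_eig S R.isRoot hx 0).2.2.1

theorem SH_dmu {x : E4} (hx : x ∈ R.Om) (w : E4) :
    fderiv ℝ R.μ x w = fderiv ℝ R.μ x (R.X x) * theta S R.T x w := by
  have h1 := T.fderiv_eq_Dv R.hμ hx.1 (R.TC_diff_mu hx) w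
  have h2 : fderiv ℝ R.μ x (R.X x) = 2 * S.g x (S.lam x) (R.T x) := R.TC_Dmu hx
  rw [h1, h2, R.SH_theta_apply hx, (T3_eig S R.isRoot hx (comps x w)).2.2.2]
  ring

/-- two points are related if the profiles of `μ` along their orbits agree up to a shift -/
def SH_rel (Φ : ℝ → E4 → E4) (x y : E4) : Prop := ∃ r : ℝ, ∀ t : ℝ, R.μ (Φ t y) = R.μ (Φ (t + r) x)

theorem SH_refl (Φ : ℝ → E4 → E4) (x : E4) : R.SH_rel Φ x x := ⟨0, fun t => by rw [add_zero]⟩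

theorem SH_symm {Φ : ℝ → E4 → E4} {x y : E4} (h : R.SH_rel Φ x y) : R.SH_rel Φ y x := by
  obtain ⟨r, hr⟩ := h
  refine ⟨-r, fun t => ?_⟩
  rw [hr, neg_add_cancel_right]

theorem SH_trans {Φ : ℝ → E4 → E4} {x y z : E4} (h : R.SH_rel Φ x y) (h' : R.SH_rel Φ y z) :
    R.SH_rel Φ x z := by
  obtain ⟨r, hr⟩ := h
  obtain ⟨r', hr'⟩ := h'
  refine ⟨r' + r, fun t => ?_⟩
  rw [hr', hr, add_assoc]

theorem SH_local {Φ : ℝ → E4 → E4} (hΦ0 : ∀ x ∈ R.Om, Φ 0 x = x)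
    (hΦ : ∀ x ∈ R.Om, Sol R.X R.Om (fun t => Φ t x) univ) {x : E4} (hx : x ∈ R.Om) :
    ∀ᶠ y in 𝓝 x, R.SH_rel Φ x y := by
  obtain ⟨ε, hε, hball⟩ := Metric.isOpen_iff.1 R.isRoot.cone.isOpen x hx
  filter_upwards [Metric.ball_mem_nhds x hε] with y hy
  have hseg : ∀ r ∈ Icc (0:ℝ) 1, x + r • (y - x) ∈ R.Om := fun r hr =>
    hball ((convex_ball x ε).add_smul_sub_mem (Metric.mem_ball_self hε) hy hr)
  have hσ : ∀ r ∈ Icc (0:ℝ) 1, HasDerivAt (fun r : ℝ => x + r • (y - x)) (y - x) r := by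
    intro r _
    have := ((hasDerivAt_id r).smul_const (y - x)).const_add x
    simpa using this
  refine ⟨∫ r in (0:ℝ)..1, theta S R.T (x + r • (y - x)) (y - x), fun t => ?_⟩
  have h := Pool.Agent.helper25.B2.shape_invariance R.isRoot.cone.isOpen
    (fun z hz => (R.SH_X hz).of_le SH_two)
    (fun z hz => (R.SH_theta hz).of_le SH_one)
    (fun z hz v w => T3_closed S R.isRoot hz v w) (fun z hz => R.SH_thetaX hz)
    (fun z hz => (R.isRoot.smμ.contDiffAt (R.isRoot.cone.isOpen.mem_nhds hz)).of_le SH_two)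
    (fun z hz w => R.SH_dmu hz w) hΦ0 hΦ (σ := fun r : ℝ => x + r • (y - x)) (σ' := fun _ => y - x)
    hseg hσ continuousOn_const t
  simpa using h

/-- shape invariance on a component -/
theorem shape {Φ : ℝ → E4 → E4} (hΦ0 : ∀ x ∈ R.Om, Φ 0 x = x)
    (hΦ : ∀ x ∈ R.Om, Sol R.X R.Om (fun t => Φ t x) univ) {x₀ x y : E4}
    (hx : x ∈ connectedComponentIn R.Om x₀) (hy : y ∈ connectedComponentIn R.Om x₀) :
    ∃ r : ℝ, ∀ t : ℝ, R.μ (Φ t y) = R.μ (Φ (t + r) x) := by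
  by_contra hcon
  have hC : IsPreconnected (connectedComponentIn R.Om x₀) := isPreconnected_connectedComponentIn
  have hsub := connectedComponentIn_subset R.Om x₀
  have hopen := R.isRoot.cone.isOpen
  have hA : IsOpen {z | z ∈ R.Om ∧ R.SH_rel Φ x z} := by
    rw [isOpen_iff_mem_nhds]
    rintro z ⟨hz, hr⟩
    filter_upwards [hopen.mem_nhds hz, R.SH_local hΦ0 hΦ hz] with w hw hw'
    exact ⟨hw, R.SH_trans hr hw'⟩
  have hB : IsOpen {z | z ∈ R.Om ∧ ¬ R.SH_rel Φ x z} := by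
    rw [isOpen_iff_mem_nhds]
    rintro z ⟨hz, hr⟩
    filter_upwards [hopen.mem_nhds hz, R.SH_local hΦ0 hΦ hz] with w hw hw'
    exact ⟨hw, fun h => hr (R.SH_trans h (R.SH_symm hw'))⟩
  obtain ⟨z, -, hz1, hz2⟩ := hC _ _ hA hB
    (fun z hz => by
      by_cases h : R.SH_rel Φ x z
      · exact Or.inl ⟨hsub hz, h⟩
      · exact Or.inr ⟨hsub hz, h⟩)
    ⟨x, hx, hsub hx, R.SH_refl Φ x⟩ ⟨y, hy, hsub hy, hcon⟩
  exact hz2.2 hz1.2

end Srt

end Pool.Agent.helper68.B2
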