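import Pool.Agent.helper25.B2.TL2

/-! The content of this module is in `Pool.Agent.helper25.B2.TL2` (merged to shorten the chain of imports). -/
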