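import Pool.Agent.helper49.B2.FR2
import Pool.Agent.helper25.B2.GDefs
import Pool.Agent.helper49.B2.BE
import Mathlib
import Pool.Agent.helper13.B2.CET

/-! # B2: merged modules helper49/BRH, helper49/CEP, helper13/CEG -/

section -- module helper49/BRH
/-! # MP_b2b189_gt, b2:BRH: block data near a collision of the two smallest eigenvalues -/

set_option autoImplicit false

namespace Pool.Agent.helper68.B2

open scoped ContDiff Topology Matrix
open Matrix Set Filter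
open Pool.Agent.helper25.B2 (Sol Block)

namespace Srt

variable {S : Geo} (R : Srt S)

theorem BRH_space {p : E4} (hp : p ≠ 0) (h12 : R.μ p = R.ν p) (h23 : R.ν p < R.ρ p) :
    ∃ e : V3, S.g p e e = 1 ∧ S.L p *ᵥ e = R.ρ p • e := by
  have hl : Lor (S.G p) := ⟨S.symm p hp, S.det_neg p hp, S.pos p hp⟩
  have hA : SA (S.G p) (S.L p) := S.selfadj p hp
  have hA' := LA2_sa hl.symm hA (R.ρ p)
  have hfac := R.fac p hp
  have h3 : RR3 (S.L p) (R.ρ p) (R.μ p) (R.ν p) := fun t => by rw [hfac t]; ring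
  obtain ⟨s, w, hs, -, hadj, hw, htr⟩ := LA_adj_root hl hA' (RR3_adj h3).2
  have hLw : S.L p *ᵥ w = R.ρ p • w := by
    rw [Matrix.sub_mulVec, Matrix.smul_mulVec, Matrix.one_mulVec, sub_eq_zero] at hw
    exact hw
  rw [(RR3_adj h3).1] at htr
  have hpos' : 0 < (R.ρ p - R.μ p) * (R.ρ p - R.ν p) :=
    mul_pos (by linarith) (by linarith)
  have hw0 : w ≠ 0 := by
    rintro rfl
    rw [LA1_zero_left, mul_zero] at htr
    linarith
  -- the null eigenvector `T`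
  have hTadj := LA2_adj hl (R.KT p hp)
  have hLT := LA2_zero hl (RR3_adj hfac).2 R.hsg (R.KT p hp)
  have hLT' : S.L p *ᵥ R.T p = R.μ p • R.T p := by
    rw [Matrix.sub_mulVec, Matrix.smul_mulVec, Matrix.one_mulVec, sub_eq_zero] at hLT
    exact hLT
  have hTT : bil (S.G p) (R.T p) (R.T p) = 0 := by
    have h4 := congrArg Matrix.trace hTadj
    rw [(RR3_adj hfac).1, h12, sub_self, zero_mul, Matrix.trace_smul, GA_trace_vecMulVec,
      smul_eq_mul] at h4
    rcases R.hsg with h | h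
    · rw [h, one_mul] at h4
      exact h4.symm
    · rw [h] at h4
      have h5 : R.T p ⬝ᵥ (S.G p *ᵥ R.T p) = 0 := by linarith
      exact h5
  have hne : R.ρ p ≠ R.μ p := by
    intro h0
    rw [h0, ← h12] at h23
    exact lt_irrefl _ h23
  have horth := LA_orth hl.symm hA hne hLw hLT'
  have hpos : 0 < bil (S.G p) w w := by
    by_contra hcon
    push Not at hcon
    obtain ⟨h4, -⟩ := LA_causal_orth hl horth hcon (le_of_eq hTT) hw0 (R.T0 p hp)
    rw [h4, mul_zero] at htr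
    linarith
  exact ⟨(Real.sqrt (bil (S.G p) w w))⁻¹ • w, LA1_unit hpos, by
    rw [Matrix.mulVec_smul, hLw, smul_comm]⟩

/-- block data near a collision `μ = ν < ρ`, with `l = ρ` -/
theorem exists_block_rho {p : E4} (hp : p ≠ 0) (h12 : R.μ p = R.ν p) (h23 : R.ν p < R.ρ p) :
    ∃ (B : Pool.Agent.helper25.B2.Block E4) (z n e : E4 → V3), p ∈ B.W ∧ BlockOf S B z n e ∧ B.A ∧
      ∀ x ∈ B.W, R.ν x < R.ρ x ∧ B.l x = R.ρ x ∧ B.s x = (R.μ x + R.ν x) / 2 ∧
        Real.sqrt (B.a x * B.b x) = (R.ν x - R.μ x) / 2 ∧ (B.a x = 0 → B.b x ≠ 0) := by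
  obtain ⟨e₀, he1, he2⟩ := R.BRH_space hp h12 h23
  have hrp : ∀ x, x ≠ 0 → RR3 (S.L x) (R.ρ x) (R.μ x) (R.ν x) := fun x hx t => by
    rw [R.fac x hx t]; ring
  obtain ⟨B₀, z, n, e, hpW, hlp, hB₀⟩ := exists_block S
    (fun x hx => ⟨_, _, _, R.fac x hx⟩) hp he2 he1 (by
      rw [(RR3_adj (hrp p hp)).1]
      exact mul_pos (by linarith) (by linarith))
  have hx0 : ∀ x ∈ B₀.W, x ≠ 0 := fun x hx => T6d_ne hB₀ hx
  set W' : Set E4 := {x | x ∈ B₀.W ∧ R.ν x < R.ρ x ∧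
    (R.ρ x - B₀.s x) ^ 2 - B₀.a x * B₀.b x ≠ 0} with hW'
  have hl : ∀ x ∈ W', B₀.l x = R.ρ x := by
    rintro x ⟨hxW, -, hne⟩
    have h1 := FR2_det hB₀ hxW (R.ρ x)
    rw [FR1_det_neg, (RR3_adj (hrp x (hx0 x hxW))).2, neg_zero] at h1
    have h2 := (mul_eq_zero.1 h1.symm).resolve_left hne
    linarith
  have hcone : OCone W' := by
    refine ⟨?_, fun h => hx0 0 h.1 rfl, ?_⟩
    · rw [isOpen_iff_mem_nhds]
      rintro x ⟨hxW, hlt, hne⟩
      have hxn := isOpen_compl_singleton.mem_nhds (hx0 x hxW)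
      have cν : ContinuousAt R.ν x := R.cν.continuousAt hxn
      have cρ : ContinuousAt R.ρ x := R.cρ.continuousAt hxn
      have c1 : ContinuousAt (fun x => (R.ρ x - B₀.s x) ^ 2 - B₀.a x * B₀.b x) x :=
        ((cρ.sub (B₀.smooth_s x hxW).continuousAt).pow 2).sub
          ((B₀.smooth_a x hxW).continuousAt.mul (B₀.smooth_b x hxW).continuousAt)
      filter_upwards [B₀.isOpen_W.mem_nhds hxW, cν.eventually_lt cρ hlt, c1.eventually_ne hne]
        with y h1 h2 h3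
      exact ⟨h1, h2, h3⟩
    · rintro x ⟨hxW, hlt, hne⟩ t ht
      refine ⟨hB₀.cone.smul x hxW t ht, by rw [R.hν t ht, R.hρ t ht]; exact hlt, ?_⟩
      obtain ⟨h1, -, h2, h3⟩ := hB₀.homs x hxW t ht
      rw [h1, h2, h3, R.hρ t ht]
      exact hne
  have hsub : W' ⊆ B₀.W := fun x hx => hx.1
  have hpW' : p ∈ W' := by
    refine ⟨hpW, h23, ?_⟩
    rw [← hlp]
    exact (B₀.P_pos p hpW).ne'
  set B : Block E4 := FR2_restrict B₀ W' hcone.isOpen hsub with hBdef
  have hB : BlockOf S B z n e := FR2_restrict_of hB₀ hcone hsub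
  have hBx : ∀ x ∈ B.W, x ≠ 0 := fun x hx => hx0 x hx.1
  have hBl : ∀ x ∈ B.W, B.l x = R.ρ x := hl
  have hne0 : ∀ x ∈ B.W, z x ≠ 0 ∧ n x ≠ 0 := by
    intro x hx
    have hf := hB.frame x hx
    refine ⟨fun h0 => ?_, fun h0 => ?_⟩
    · have := hf.zn
      rw [h0, LA1_zero_left] at this
      exact zero_ne_one this
    · have := hf.zn
      rw [h0, LA1_zero_right] at this
      exact zero_ne_one this
  have hBA : B.A := by
    refine ⟨fun x hx ha => ?_, fun x hx hb => ?_⟩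
    · have hL := hB.Ln x hx
      rw [ha, zero_smul, add_zero] at hL
      rw [hB.u x hx]
      exact R.lemA x (hBx x hx) _ (hne0 x hx).2 (hB.frame x hx).nn _ hL
    · have hL := hB.Lz x hx
      rw [hb, zero_smul, add_zero] at hL
      rw [hB.v x hx]
      exact R.lemA x (hBx x hx) _ (hne0 x hx).1 (hB.frame x hx).zz _ hL
  refine ⟨B, z, n, e, hpW', hB, hBA, fun x hx => ?_⟩
  have hr := block_roots S hB hx
  have hfac := R.fac x (hBx x hx)
  have hs : B.s x = (R.μ x + R.ν x) / 2 := by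
    have h1 := RR3_trace hr
    have h2 := RR3_trace hfac
    rw [hBl x hx] at h1
    linarith
  have hsq : Real.sqrt (B.a x * B.b x) = (R.ν x - R.μ x) / 2 := by
    have h1 : RR3 (S.L x) (B.l x) (B.s x - Real.sqrt (B.a x * B.b x))
        (B.s x + Real.sqrt (B.a x * B.b x)) := fun t => by rw [hr t]; ring
    have h2 := (RR3_adj h1).1
    rw [hBl x hx, (RR3_adj (hrp x (hBx x hx))).1, hs] at h2
    have h3 : (Real.sqrt (B.a x * B.b x)) ^ 2 = ((R.ν x - R.μ x) / 2) ^ 2 := by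
      linear_combination h2
    exact (sq_eq_sq₀ (Real.sqrt_nonneg _) (by linarith [R.le₁ x (hBx x hx)])).1 h3
  refine ⟨hx.2.1, hBl x hx, hs, hsq, fun ha hb => ?_⟩
  have h1 := block_adj S hB hx (ρ := 0) (by rw [ha]; ring)
  rw [ha, hb, zero_smul, zero_smul, zero_smul, add_zero, add_zero, add_zero, smul_zero] at h1
  rw [ha, zero_mul, Real.sqrt_zero] at hsq
  have h2 : R.μ x = B.s x := by rw [hs]; linarith
  have h3 := R.KT x (hBx x hx)
  rw [h2, h1] at h3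
  have hT := R.T0 x (hBx x hx)
  obtain ⟨i, hi⟩ := Function.ne_iff.1 hT
  have h4 := congrFun (congrFun h3 i) i
  simp only [Matrix.zero_apply, Matrix.smul_apply, vecMulVec_apply, smul_eq_mul] at h4
  have h5 : R.T x i * R.T x i ≠ 0 := mul_self_ne_zero.2 hi
  rcases R.hsg with h | h
  · rw [h, one_mul] at h4
    exact h5 h4.symm
  · rw [h] at h4
    apply h5
    linarith

end Srt

end Pool.Agent.helper68.B2
end -- module helper49/BRH

section -- module helper49/CEP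
/-! # MP_b2b189_gt, b2:CEP: estimate of `g(lam, T)` near a collision -/

set_option autoImplicit false

namespace Pool.Agent.helper68.B2

open scoped ContDiff Topology Matrix
open Matrix Set Filter
open Pool.Agent.helper25.B2 (Sol Block)
open Pool.Agent.helper25.B2.Block

/-- `v² ≤ C |b|` near a point with `a ≠ 0` -/
theorem CEP_v {E : Type*} [NormedAddCommGroup E] [NormedSpace ℝ E] (B : Block E) {q : E}
    (hq : q ∈ B.W) (ha : B.a q ≠ 0) :
    ∃ C : ℝ, 0 ≤ C ∧ ∀ᶠ x in 𝓝 q, B.v x ^ 2 ≤ C * |B.b x| := by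
  have ca := (B.smooth_a q hq).continuousAt
  have hW := B.isOpen_W.mem_nhds hq
  rcases lt_or_gt_of_ne ha with hneg | hpos
  · have h1 : ∀ᶠ x in 𝓝 q, B.b x ≤ 0 := by
      filter_upwards [hW, ca.eventually_lt_const hneg] with x hx hax
      by_contra hcon
      push Not at hcon
      have := B.ab_nonneg x hx
      nlinarith
    obtain ⟨C, hC⟩ := block_E B.swap.neg hq (h1.mono fun x hx => by
      show 0 ≤ -B.b x
      linarith)
    refine ⟨max C 0, le_max_right _ _, ?_⟩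
    filter_upwards [hC, h1] with x hx hb
    have h2 : B.v x ^ 2 ≤ C * -B.b x := by
      have : (-B.v x) ^ 2 ≤ C * -B.b x := hx
      rwa [neg_sq] at this
    rw [abs_of_nonpos hb]
    exact h2.trans (mul_le_mul_of_nonneg_right (le_max_left _ _) (by linarith))
  · have h1 : ∀ᶠ x in 𝓝 q, 0 ≤ B.b x := by
      filter_upwards [hW, ca.eventually_const_lt hpos] with x hx hax
      by_contra hcon
      push Not at hcon
      have := B.ab_nonneg x hx
      nlinarith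
    obtain ⟨C, hC⟩ := block_E B.swap hq h1
    refine ⟨max C 0, le_max_right _ _, ?_⟩
    filter_upwards [hC, h1] with x hx hb
    have h2 : B.v x ^ 2 ≤ C * B.b x := hx
    rw [abs_of_nonneg hb]
    exact h2.trans (mul_le_mul_of_nonneg_right (le_max_left _ _) hb)

theorem CEP_bound {E : Type*} [NormedAddCommGroup E] [NormedSpace ℝ E] (B : Block E) {q : E}
    (hq : q ∈ B.W) (ha : B.a q ≠ 0) :
    ∃ C : ℝ, 0 ≤ C ∧ ∀ᶠ x in 𝓝 q, |B.a x * B.v x ^ 2 + B.b x * B.u x ^ 2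
      - 2 * Real.sqrt (B.a x * B.b x) * B.u x * B.v x| ≤ C * (B.a x * B.b x) := by
  obtain ⟨C₁, hC₁, h1⟩ := CEP_v B hq ha
  have ca := (B.smooth_a q hq).continuousAt
  have cu := (B.smooth_u q hq).continuousAt
  set α : ℝ := |B.a q| / 2 with hα
  have hα0 : 0 < α := half_pos (abs_pos.2 ha)
  set U : ℝ := B.u q ^ 2 + 1 with hU
  have hU0 : 0 ≤ U := by positivity
  have h2 : ∀ᶠ x in 𝓝 q, α < |B.a x| := ca.abs.eventually_const_lt (by
    rw [hα]; exact half_lt_self (abs_pos.2 ha))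
  have h3 : ∀ᶠ x in 𝓝 q, B.u x ^ 2 < U := (cu.pow 2).eventually_lt_const (by
    show B.u q ^ 2 < U
    rw [hU]; linarith)
  refine ⟨C₁ + U / α + (1 + U * C₁ / α), by positivity, ?_⟩
  filter_upwards [B.isOpen_W.mem_nhds hq, h1, h2, h3] with x hx hv hαx hux
  have hab := B.ab_nonneg x hx
  set P := B.a x * B.b x with hP
  have hPabs : |B.a x| * |B.b x| = P := by rw [← abs_mul, abs_of_nonneg hab]
  have hs2 := Real.sq_sqrt hab
  have hs0 := Real.sqrt_nonneg P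
  set s := Real.sqrt P with hs
  have hb : |B.b x| ≤ P / α := by
    rw [le_div_iff₀ hα0]
    nlinarith [abs_nonneg (B.b x)]
  have e1 : |B.a x * B.v x ^ 2| ≤ C₁ * P := by
    rw [abs_mul, abs_of_nonneg (sq_nonneg (B.v x))]
    calc |B.a x| * B.v x ^ 2 ≤ |B.a x| * (C₁ * |B.b x|) :=
          mul_le_mul_of_nonneg_left hv (abs_nonneg _)
      _ = C₁ * P := by rw [← hPabs]; ring
  have e2 : |B.b x * B.u x ^ 2| ≤ U / α * P := by
    rw [abs_mul, abs_of_nonneg (sq_nonneg (B.u x))]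
    calc |B.b x| * B.u x ^ 2 ≤ (P / α) * U :=
          mul_le_mul hb hux.le (sq_nonneg _) (by positivity)
      _ = U / α * P := by ring
  have e3 : |2 * s * B.u x * B.v x| ≤ (1 + U * C₁ / α) * P := by
    have h4 : |2 * s * B.u x * B.v x| ≤ s ^ 2 + (B.u x * B.v x) ^ 2 := by
      rw [abs_le]
      constructor <;> nlinarith [sq_nonneg (s + B.u x * B.v x), sq_nonneg (s - B.u x * B.v x)]
    have h5 : (B.u x * B.v x) ^ 2 ≤ U * (C₁ * (P / α)) := by
      rw [mul_pow]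
      refine mul_le_mul hux.le (hv.trans (mul_le_mul_of_nonneg_left hb hC₁)) (sq_nonneg _) hU0
    calc |2 * s * B.u x * B.v x| ≤ s ^ 2 + (B.u x * B.v x) ^ 2 := h4
      _ ≤ P + U * (C₁ * (P / α)) := by rw [hs2]; linarith
      _ = (1 + U * C₁ / α) * P := by ring
  calc |B.a x * B.v x ^ 2 + B.b x * B.u x ^ 2 - 2 * s * B.u x * B.v x|
      ≤ |B.a x * B.v x ^ 2 + B.b x * B.u x ^ 2| + |2 * s * B.u x * B.v x| := abs_sub _ _
    _ ≤ |B.a x * B.v x ^ 2| + |B.b x * B.u x ^ 2| + |2 * s * B.u x * B.v x| := by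
        gcongr
        exact abs_add_le _ _
    _ ≤ C₁ * P + U / α * P + (1 + U * C₁ / α) * P := by linarith
    _ = (C₁ + U / α + (1 + U * C₁ / α)) * P := by ring

namespace Srt

variable {S : Geo} (R : Srt S)

theorem CE_pair {p : E4} (hp : p ≠ 0) (h12 : R.μ p = R.ν p) (h23 : R.ν p < R.ρ p) :
    ∃ C : ℝ, ∀ᶠ x in 𝓝 p, |S.g x (S.lam x) (R.T x)| ≤ C * (R.ν x - R.μ x) := by
  obtain ⟨B, z, n, e, hpW, hB, hBA, H⟩ := R.exists_block_rho hp h12 h23
  obtain ⟨C, hC0, hC⟩ : ∃ C : ℝ, 0 ≤ C ∧ ∀ᶠ x in 𝓝 p, |B.a x * B.v x ^ 2 + B.b x * B.u x ^ 2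
      - 2 * Real.sqrt (B.a x * B.b x) * B.u x * B.v x| ≤ C * (B.a x * B.b x) := by
    by_cases ha : B.a p = 0
    · have hb := (H p hpW).2.2.2.2 ha
      obtain ⟨C, hC0, hC⟩ := CEP_bound B.swap hpW hb
      refine ⟨C, hC0, hC.mono fun x hx => ?_⟩
      have hx' : |B.b x * B.u x ^ 2 + B.a x * B.v x ^ 2
        - 2 * Real.sqrt (B.b x * B.a x) * B.v x * B.u x| ≤ C * (B.b x * B.a x) := hx
      rw [mul_comm (B.b x) (B.a x)] at hx'
      have e1 : B.b x * B.u x ^ 2 + B.a x * B.v x ^ 2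
        - 2 * Real.sqrt (B.a x * B.b x) * B.v x * B.u x = B.a x * B.v x ^ 2 + B.b x * B.u x ^ 2
      - 2 * Real.sqrt (B.a x * B.b x) * B.u x * B.v x := by ring
      rw [e1] at hx'
      exact hx'
    · exact CEP_bound B hpW ha
  -- bound for `μ - l`
  have cμ : ContinuousAt R.μ p := R.cμ.continuousAt (isOpen_compl_singleton.mem_nhds hp)
  have cl : ContinuousAt B.l p := (B.smooth_l p hpW).continuousAt
  set M : ℝ := |R.μ p - B.l p| + 1 with hM
  have hM0 : 0 ≤ M := by positivity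
  have hMx : ∀ᶠ x in 𝓝 p, |R.μ x - B.l x| < M :=
    (cμ.sub cl).abs.eventually_lt_const (by
      show |R.μ p - B.l p| < M
      rw [hM]; linarith)
  refine ⟨Real.sqrt (M * C), ?_⟩
  filter_upwards [B.isOpen_W.mem_nhds hpW, hC, hMx] with x hx hCx hMx
  obtain ⟨h1, h2, h3, h4, -⟩ := H x hx
  have hx0 : x ≠ 0 := T6d_ne hB hx
  have hμν := R.le₁ x hx0
  have hab := B.ab_nonneg x hx
  have hsq := Real.sq_sqrt hab
  have hadj := block_adj S hB hx (ρ := -Real.sqrt (B.a x * B.b x)) (by rw [neg_sq, hsq])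
  have hmu : B.s x + -Real.sqrt (B.a x * B.b x) = R.μ x := by rw [h3, h4]; ring
  rw [hmu, R.KT x hx0] at hadj
  set w : V3 := S.G x *ᵥ S.lam x with hw
  have hwT : w ⬝ᵥ R.T x = S.g x (S.lam x) (R.T x) := by
    rw [S.g_symm hx0, dotProduct_comm]; rfl
  have hwz : w ⬝ᵥ z x = B.v x := by
    rw [hB.v x hx, S.g_symm hx0, dotProduct_comm]; rfl
  have hwn : w ⬝ᵥ n x = B.u x := by
    rw [hB.u x hx, S.g_symm hx0, dotProduct_comm]; rfl
  have hzw : z x ⬝ᵥ w = B.v x := by rw [dotProduct_comm, hwz]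
  have hnw : n x ⬝ᵥ w = B.u x := by rw [dotProduct_comm, hwn]
  have hTw : R.T x ⬝ᵥ w = S.g x (S.lam x) (R.T x) := by rw [dotProduct_comm, hwT]
  have key := congrArg (fun A : M3 => w ⬝ᵥ (A *ᵥ w)) hadj
  simp only [Matrix.smul_mulVec, Matrix.add_mulVec, GA_vecMulVec_mulVec, dotProduct_smul,
    dotProduct_add, smul_eq_mul, hwT, hTw, hwz, hzw, hwn, hnw] at key
  have hg2 : S.g x (S.lam x) (R.T x) ^ 2 = |R.μ x - B.l x| * |B.a x * B.v x ^ 2 + B.b x * B.u x ^ 2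
      - 2 * Real.sqrt (B.a x * B.b x) * B.u x * B.v x| := by
    rw [← abs_mul]
    have h5 : (R.μ x - B.l x) * (B.a x * B.v x ^ 2 + B.b x * B.u x ^ 2
      - 2 * Real.sqrt (B.a x * B.b x) * B.u x * B.v x) = R.sg * S.g x (S.lam x) (R.T x) ^ 2 := by
      linear_combination -key
    rw [h5, abs_mul, abs_of_nonneg (sq_nonneg (S.g x (S.lam x) (R.T x)))]
    rcases R.hsg with h | h
    · rw [h]; simp
    · rw [h]; simp
  have hle : S.g x (S.lam x) (R.T x) ^ 2 ≤ (Real.sqrt (M * C) * (R.ν x - R.μ x)) ^ 2 := by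
    rw [hg2, mul_pow, Real.sq_sqrt (mul_nonneg hM0 hC0)]
    have h6 : B.a x * B.b x = ((R.ν x - R.μ x) / 2) ^ 2 := by rw [← h4, hsq]
    calc |R.μ x - B.l x| * |B.a x * B.v x ^ 2 + B.b x * B.u x ^ 2
      - 2 * Real.sqrt (B.a x * B.b x) * B.u x * B.v x| ≤ M * (C * (B.a x * B.b x)) :=
          mul_le_mul hMx.le hCx (abs_nonneg _) hM0
      _ = M * C * ((R.ν x - R.μ x) / 2) ^ 2 := by rw [h6]; ring
      _ ≤ M * C * (R.ν x - R.μ x) ^ 2 := by
          apply mul_le_mul_of_nonneg_left _ (mul_nonneg hM0 hC0)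
          nlinarith
  exact abs_le_of_sq_le_sq hle (mul_nonneg (Real.sqrt_nonneg _) (by linarith))

end Srt

end Pool.Agent.helper68.B2
end -- module helper49/CEP

section -- module helper13/CEG
/-! # MP_b2b189_gt, module CEG: global estimates of `g(lam, T)` -/

set_option autoImplicit false

namespace Pool.Agent.helper68.B2

open scoped ContDiff Topology Matrix
open Matrix Set Filter

theorem CEG_bil_continuous : Continuous fun q : M3 × V3 × V3 => bil q.1 q.2.1 q.2.2 := by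
  unfold bil
  exact Continuous.dotProduct (continuous_fst.comp continuous_snd)
    (Continuous.matrix_mulVec continuous_fst (continuous_snd.comp continuous_snd))

theorem CEG_compact {K : Set E4} (hK : IsCompact K) (F D : E4 → ℝ)
    (hD : ∀ x, x ≠ 0 → 0 ≤ D x)
    (hloc : ∀ p ∈ K, ∃ C : ℝ, ∀ᶠ x in 𝓝 p, F x ≤ C * D x) :
    ∃ C : ℝ, 0 ≤ C ∧ ∀ x ∈ K, x ≠ 0 → F x ≤ C * D x := by
  refine hK.induction_on (p := fun s => ∃ C : ℝ, 0 ≤ C ∧ ∀ x ∈ s, x ≠ 0 → F x ≤ C * D x) ?_ ?_ ?_ ?_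
  · exact ⟨0, le_refl _, fun x hx => absurd hx (notMem_empty x)⟩
  · rintro s t hst ⟨C, hC, h⟩
    exact ⟨C, hC, fun x hx => h x (hst hx)⟩
  · rintro s t ⟨C, hC, h⟩ ⟨C', hC', h'⟩
    refine ⟨max C C', le_max_of_le_left hC, fun x hx hx0 => ?_⟩
    rcases hx with hx | hx
    · exact (h x hx hx0).trans (mul_le_mul_of_nonneg_right (le_max_left _ _) (hD x hx0))
    · exact (h' x hx hx0).trans (mul_le_mul_of_nonneg_right (le_max_right _ _) (hD x hx0))
  · intro p hp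
    obtain ⟨C, hC⟩ := hloc p hp
    refine ⟨{x | F x ≤ C * D x}, mem_nhdsWithin_of_mem_nhds hC, max C 0, le_max_right _ _, ?_⟩
    intro x hx hx0
    exact (show F x ≤ C * D x from hx).trans
      (mul_le_mul_of_nonneg_right (le_max_left _ _) (hD x hx0))

theorem CEG_loc {F D : E4 → ℝ} {p : E4} (hF : ContinuousAt F p) (hD : ContinuousAt D p)
    (h : 0 < D p) : ∃ C : ℝ, ∀ᶠ x in 𝓝 p, F x ≤ C * D x := by
  refine ⟨(|F p| + 1) / (D p / 2), ?_⟩
  have h1 : ∀ᶠ x in 𝓝 p, F x < |F p| + 1 :=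
    hF.eventually_lt continuousAt_const (by linarith [le_abs_self (F p)])
  have h2 : ∀ᶠ x in 𝓝 p, D p / 2 < D x :=
    continuousAt_const.eventually_lt hD (by linarith)
  filter_upwards [h1, h2] with x hx1 hx2
  have h3 : 0 < D p / 2 := by linarith
  have h4 : 0 ≤ |F p| + 1 := by positivity
  calc F x ≤ |F p| + 1 := hx1.le
    _ = (|F p| + 1) / (D p / 2) * (D p / 2) := by field_simp
    _ ≤ (|F p| + 1) / (D p / 2) * D x := by
      apply mul_le_mul_of_nonneg_left hx2.le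
      positivity

namespace Srt

variable {S : Geo} (R : Srt S)

theorem CEG_cont {p : E4} (hp : p ≠ 0) :
    ContinuousAt (fun x => |S.g x (S.lam x) (R.T x)|) p := by
  have hn : ({0}ᶜ : Set E4) ∈ 𝓝 p := isOpen_compl_singleton.mem_nhds hp
  have hG : ContinuousAt S.G p := (S.smG.continuousOn).continuousAt hn
  have hl : ContinuousAt S.lam p := (S.smlam.continuousOn).continuousAt hn
  have hT : ContinuousAt R.T p := R.cT.continuousAt hn
  have h1 : ContinuousAt (fun x => (S.G x, S.lam x, R.T x)) p := hG.prodMk (hl.prodMk hT)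
  have h2 : ContinuousAt (fun x => bil (S.G x) (S.lam x) (R.T x)) p :=
    CEG_bil_continuous.continuousAt.comp h1
  exact h2.abs

theorem CEG_hom {t : ℝ} (ht : 0 < t) (x : E4) :
    |S.g (t • x) (S.lam (t • x)) (R.T (t • x))| = |S.g x (S.lam x) (R.T x)| := by
  unfold Geo.g
  rw [S.homG t ht x, S.homlam t ht x, R.hT t ht x]

/-- passage from the unit sphere to all points -/
theorem CEG_scale {x : E4} (hx : x ≠ 0) :
    ‖x‖⁻¹ • x ∈ Metric.sphere (0 : E4) 1 ∧ ‖x‖⁻¹ • x ≠ 0 ∧ 0 < ‖x‖⁻¹ := by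
  have h1 : 0 < ‖x‖ := norm_pos_iff.2 hx
  refine ⟨?_, ?_, inv_pos.2 h1⟩
  · rw [mem_sphere_zero_iff_norm, norm_smul, norm_inv, norm_norm, inv_mul_cancel₀ h1.ne']
  · exact smul_ne_zero (inv_ne_zero h1.ne') hx

theorem CE_glob : ∃ C : ℝ, 0 ≤ C ∧ ∀ x, x ≠ 0 → |S.g x (S.lam x) (R.T x)| ≤ C * (R.ρ x - R.μ x) := by
  have hD : ∀ x, x ≠ 0 → 0 ≤ R.ρ x - R.μ x := fun x hx => by
    linarith [R.le₁ x hx, R.le₂ x hx]
  obtain ⟨C, hC, h⟩ := CEG_compact (isCompact_sphere (0 : E4) 1)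
    (fun x => |S.g x (S.lam x) (R.T x)|) (fun x => R.ρ x - R.μ x) hD (by
      intro p hp
      have hp0 : p ≠ 0 := by
        rintro rfl
        simp at hp
      have hn : ({0}ᶜ : Set E4) ∈ 𝓝 p := isOpen_compl_singleton.mem_nhds hp0
      rcases (hD p hp0).lt_or_eq with h | h
      · exact CEG_loc (R.CEG_cont hp0) ((R.cρ.continuousAt hn).sub (R.cμ.continuousAt hn)) h
      · exact R.CE_triple hp0 (by linarith))
  refine ⟨C, hC, fun x hx => ?_⟩
  obtain ⟨h1, h2, h3⟩ := CEG_scale hx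
  have h4 := h _ h1 h2
  simp only [R.CEG_hom h3 x, R.hρ _ h3 x, R.hμ _ h3 x] at h4
  exact h4

theorem CE_glob_pair {δ : ℝ} (hδ : 0 < δ) : ∃ C : ℝ, 0 ≤ C ∧ ∀ x, x ≠ 0 → δ ≤ R.ρ x - R.ν x →
    |S.g x (S.lam x) (R.T x)| ≤ C * (R.ν x - R.μ x) := by
  have hD : ∀ x, x ≠ 0 → 0 ≤ R.ν x - R.μ x := fun x hx => by
    linarith [R.le₁ x hx]
  have hsph : Metric.sphere (0 : E4) 1 ⊆ {0}ᶜ := by
    rintro x hx rfl
    simp at hx
  have hcl : IsClosed (Metric.sphere (0 : E4) 1 ∩ (fun x => R.ρ x - R.ν x) ⁻¹' Ici δ) :=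
    ((R.cρ.sub R.cν).mono hsph).preimage_isClosed_of_isClosed Metric.isClosed_sphere isClosed_Ici
  have hK : IsCompact (Metric.sphere (0 : E4) 1 ∩ (fun x => R.ρ x - R.ν x) ⁻¹' Ici δ) :=
    (isCompact_sphere (0 : E4) 1).of_isClosed_subset hcl inter_subset_left
  obtain ⟨C, hC, h⟩ := CEG_compact hK
    (fun x => |S.g x (S.lam x) (R.T x)|) (fun x => R.ν x - R.μ x) hD (by
      intro p hp
      have hp0 : p ≠ 0 := hsph hp.1
      have hn : ({0}ᶜ : Set E4) ∈ 𝓝 p := isOpen_compl_singleton.mem_nhds hp0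
      rcases (hD p hp0).lt_or_eq with h | h
      · exact CEG_loc (R.CEG_cont hp0) ((R.cν.continuousAt hn).sub (R.cμ.continuousAt hn)) h
      · refine R.CE_pair hp0 (by linarith) ?_
        have : δ ≤ R.ρ p - R.ν p := hp.2
        linarith)
  refine ⟨C, hC, fun x hx hδx => ?_⟩
  obtain ⟨h1, h2, h3⟩ := CEG_scale hx
  have h5 : ‖x‖⁻¹ • x ∈ Metric.sphere (0 : E4) 1 ∩ (fun x => R.ρ x - R.ν x) ⁻¹' Ici δ := by
    refine ⟨h1, ?_⟩
    show δ ≤ R.ρ (‖x‖⁻¹ • x) - R.ν (‖x‖⁻¹ • x)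
    rw [R.hρ _ h3 x, R.hν _ h3 x]
    exact hδx
  have h4 := h _ h5 h2
  simp only [R.CEG_hom h3 x, R.hν _ h3 x, R.hμ _ h3 x] at h4
  exact h4

end Srt

end Pool.Agent.helper68.B2
end -- module helper13/CEG
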