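import Mathlib
import Pool.Agent.helper25.B2.GDefs
import Pool.Agent.helper68.B2.Defs3
import Pool.Agent.helper58.B2.FG
import Pool.Agent.helper31.B2.B0a
import Pool.Agent.helper22.B2.G0
import Pool.Agent.helper25.B2.TL1
import Pool.Agent.helper25.B2.TC
import Pool.Agent.helper15.B2.FL
import Pool.Agent.helper25.B2.SH
import Pool.Agent.helper98.B2.B0b

/-! # B2: merged modules helper26/CMP, helper26/FLW, helper25/SH2, helper68/G1 -/

section -- module helper26/CMP
/-! # B2 wave 4, module CMP: completeness of the root field -/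

set_option autoImplicit false

namespace Pool.Agent.helper68.B2

open scoped ContDiff Topology Matrix
open Matrix Set Filter
open Pool.Agent.helper25.B2 (Sol)

namespace Srt

variable {S : Geo} (R : Srt S)

theorem CMP_X_smooth {x : E4} (hx : x ∈ R.Om) : ContDiffAt ℝ ∞ R.X x := by
  have hT : ContDiffAt ℝ ∞ R.T x := R.isRoot.smT.contDiffAt (R.isRoot.cone.isOpen.mem_nhds hx)
  have h : R.X = fun y => ∑ i, R.T y i • J i y := by
    funext y; rfl
  rw [h]
  refine ContDiffAt.sum fun i _ => ?_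
  have h1 : ContDiffAt ℝ ∞ (fun y => R.T y i) x := contDiffAt_pi.1 hT i
  have h2 : ContDiffAt ℝ ∞ (fun y => J i y) x := (J i).contDiff.contDiffAt
  exact h1.smul h2

theorem CMP_X_smooth1 {x : E4} (hx : x ∈ R.Om) : ContDiffAt ℝ 1 R.X x :=
  (R.CMP_X_smooth hx).of_le (by simp)

/-- the constant in the Gronwall estimate along a curve through `x` -/
theorem CMP_const {x : E4} (hx : x ∈ R.Om) : ∃ C : ℝ, 0 ≤ C ∧ ∀ y : E4, y ≠ 0 → R.ν y = R.ν x →
    R.ρ y = R.ρ x → |S.g y (S.lam y) (R.T y)| ≤ C * (R.ν x - R.μ y) := by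
  rcases (R.le₂ x hx.1).lt_or_eq with h | h
  · obtain ⟨C, hC, h1⟩ := R.CE_glob_pair (sub_pos.2 h)
    refine ⟨C, hC, fun y hy h2 h3 => ?_⟩
    rw [← h2]
    exact h1 y hy (by rw [h2, h3])
  · obtain ⟨C, hC, h1⟩ := R.CE_glob
    refine ⟨C, hC, fun y hy h2 h3 => ?_⟩
    have h4 := h1 y hy
    rw [h3, ← h] at h4
    exact h4

theorem complete {x : E4} (hx : x ∈ R.Om) : ∃ γ : ℝ → E4, γ 0 = x ∧ Sol R.X R.Om γ univ := by
  obtain ⟨C, hC, hCE⟩ := R.CMP_const hx
  refine Pool.Agent.helper25.B2.exists_sol_global R.isRoot.cone.isOpen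
    (fun y hy => R.CMP_X_smooth1 hy) hx fun s₀ hs₀ => ?_
  set c : ℝ := (R.ν x - R.μ x) * Real.exp (-(2 * C * s₀)) with hc
  have hpos : 0 < R.ν x - R.μ x := sub_pos.2 hx.2
  have hc0 : 0 < c := mul_pos hpos (Real.exp_pos _)
  have hxn : 0 < ‖x‖ := norm_pos_iff.2 hx.1
  have hsub : Metric.sphere (0 : E4) ‖x‖ ⊆ {0}ᶜ := by
    intro y hy h0
    rw [mem_singleton_iff] at h0
    rw [h0] at hy
    simp at hy
    exact hx.1 (by
      have : ‖x‖ = 0 := by linarith
      exact norm_eq_zero.1 this)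
  refine ⟨{y | y ∈ Metric.sphere (0 : E4) ‖x‖ ∧ (R.ν y = R.ν x ∧ R.ρ y = R.ρ x ∧
    c ≤ R.ν y - R.μ y)}, ?_, ?_, ?_⟩
  · refine (isCompact_sphere (0 : E4) ‖x‖).of_isClosed_subset ?_ (fun y hy => hy.1)
    have h1 : ContinuousOn R.ν (Metric.sphere (0 : E4) ‖x‖) := R.cν.mono hsub
    have h2 : ContinuousOn R.ρ (Metric.sphere (0 : E4) ‖x‖) := R.cρ.mono hsub
    have h3 : ContinuousOn R.μ (Metric.sphere (0 : E4) ‖x‖) := R.cμ.mono hsub
    have h4 : ContinuousOn (fun y => (R.ν y, R.ρ y, R.ν y - R.μ y)) (Metric.sphere (0 : E4) ‖x‖) :=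
      h1.prodMk (h2.prodMk (h1.sub h3))
    have h5 : IsClosed {p : ℝ × ℝ × ℝ | p.1 = R.ν x ∧ p.2.1 = R.ρ x ∧ c ≤ p.2.2} := by
      have e1 : IsClosed {p : ℝ × ℝ × ℝ | p.1 = R.ν x} := isClosed_eq continuous_fst continuous_const
      have e2 : IsClosed {p : ℝ × ℝ × ℝ | p.2.1 = R.ρ x} :=
        isClosed_eq (continuous_fst.comp continuous_snd) continuous_const
      have e3 : IsClosed {p : ℝ × ℝ × ℝ | c ≤ p.2.2} :=
        isClosed_le continuous_const (continuous_snd.comp continuous_snd)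
      exact e1.inter (e2.inter e3)
    have h6 := h4.preimage_isClosed_of_isClosed Metric.isClosed_sphere h5
    exact h6
  · intro y hy
    refine ⟨fun h0 => hsub hy.1 (by rw [h0]; rfl), ?_⟩
    have := hy.2.2.2
    linarith
  · intro s hs hs0 γ hγ0 hγ t ht
    have h0 : (0 : ℝ) ∈ Ioo (-s) s := ⟨by linarith, hs0⟩
    have hcc := fun u (hu : u ∈ Ioo (-s) s) => R.curve_const ordConnected_Ioo hγ hu h0
    rw [hγ0] at hcc
    have h1 := hcc t ht
    refine ⟨by simpa using h1.1, h1.2.1, h1.2.2, ?_⟩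
    have h2 := R.curve_gronwall ordConnected_Ioo hγ hC (w := R.ν x)
      (fun u hu => by
        rw [← (hcc u hu).2.1]
        exact R.le₁ _ (hγ.mem hu).1)
      (fun u hu => hCE _ (hγ.mem hu).1 (hcc u hu).2.1 (hcc u hu).2.2) ht h0
    rw [hγ0] at h2
    rw [h1.2.1]
    have h3 : |(0 : ℝ) - t| ≤ s₀ := by
      rw [zero_sub, abs_neg]
      exact (abs_le.2 ⟨ht.1.le, ht.2.le⟩).trans hs
    have h4 : 0 ≤ R.ν x - R.μ (γ t) := by
      rw [← h1.2.1]
      exact sub_nonneg.2 (R.le₁ _ (hγ.mem ht).1)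
    have h5 : R.ν x - R.μ x ≤ (R.ν x - R.μ (γ t)) * Real.exp (2 * C * s₀) :=
      h2.trans (mul_le_mul_of_nonneg_left (Real.exp_le_exp.2
        (mul_le_mul_of_nonneg_left h3 (by positivity))) h4)
    rw [hc]
    calc (R.ν x - R.μ x) * Real.exp (-(2 * C * s₀))
        ≤ ((R.ν x - R.μ (γ t)) * Real.exp (2 * C * s₀)) * Real.exp (-(2 * C * s₀)) :=
          mul_le_mul_of_nonneg_right h5 (Real.exp_pos _).le
      _ = R.ν x - R.μ (γ t) := by
          rw [mul_assoc, ← Real.exp_add]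
          simp

end Srt

end Pool.Agent.helper68.B2
end -- module helper26/CMP

section -- module helper26/FLW
/-! # B2 wave 4, module FLW: the flow of the root field -/

set_option autoImplicit false

namespace Pool.Agent.helper68.B2

open scoped ContDiff Topology Matrix
open Matrix Set Filter
open Pool.Agent.helper25.B2 (Sol)

namespace Srt

variable {S : Geo} (R : Srt S)

theorem FLW_X_smul {x : E4} {c : ℝ} (hc : 0 < c) : R.X (c • x) = c • R.X x := by
  unfold X
  rw [R.hT c hc x, fld_smul_arg]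

/-- the flow; it is unique, and commutes with dilations -/
theorem exists_flow : ∃ Φ : ℝ → E4 → E4, (∀ x ∈ R.Om, Φ 0 x = x) ∧
    (∀ x ∈ R.Om, Sol R.X R.Om (fun t => Φ t x) univ) ∧
    (∀ x ∈ R.Om, ∀ s t : ℝ, Φ s (Φ t x) = Φ (s + t) x) ∧
    (∀ x ∈ R.Om, ∀ c : ℝ, 0 < c → ∀ t : ℝ, Φ t (c • x) = c • Φ t x) ∧
    (∀ t : ℝ, ContinuousOn (Φ t) R.Om) := by
  choose! φ h0 hs using fun x (hx : x ∈ R.Om) => R.complete hx
  have hΩ : IsOpen R.Om := R.isRoot.cone.isOpen
  have hX : ∀ x ∈ R.Om, ContDiffAt ℝ 1 R.X x := fun x hx => R.CMP_X_smooth1 hx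
  have huniq : ∀ γ₁ γ₂ : ℝ → E4, Sol R.X R.Om γ₁ univ → Sol R.X R.Om γ₂ univ → γ₁ 0 = γ₂ 0 →
      ∀ t, γ₁ t = γ₂ t := fun γ₁ γ₂ h1 h2 h t =>
    Pool.Agent.helper25.B2.sol_unique hΩ hX ordConnected_univ h1 h2 (mem_univ 0) h (mem_univ t)
  refine ⟨fun t x => φ x t, h0, hs, ?_, ?_, ?_⟩
  · intro x hx s t
    have hy : φ x t ∈ R.Om := (hs x hx).mem (mem_univ t)
    refine huniq (fun u => φ (φ x t) u) (fun u => φ x (u + t)) (hs _ hy) ?_ ?_ s
    · have := (hs x hx).shift t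
      exact this.mono (fun u _ => mem_univ _)
    · simp only [zero_add]
      exact h0 _ hy
  · intro x hx c hc t
    have hcx : c • x ∈ R.Om := R.isRoot.cone.smul x hx c hc
    refine huniq (fun u => φ (c • x) u) (fun u => c • φ x u) (hs _ hcx) ?_ ?_ t
    · intro u _
      refine ⟨R.isRoot.cone.smul _ ((hs x hx).mem (mem_univ u)) c hc, ?_⟩
      rw [R.FLW_X_smul hc]
      exact ((hs x hx).hasDerivAt (mem_univ u)).const_smul c
    · rw [h0 _ hcx, h0 _ hx]
  · intro t x hx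
    have hab : Sol R.X R.Om (φ x) (Icc (-|t|) |t|) := (hs x hx).mono (subset_univ _)
    obtain ⟨δ, hδ, C, hC, hL⟩ := Pool.Agent.helper25.B2.sol_lipschitz hΩ hX
      (neg_nonpos.2 (abs_nonneg t)) (abs_nonneg t) hab
    have ht : t ∈ Icc (-|t|) |t| := ⟨neg_abs_le t, le_abs_self t⟩
    rw [h0 x hx] at hL
    have hbd : ∀ᶠ y in 𝓝[R.Om] x, dist (φ y t) (φ x t) ≤ C * dist y x := by
      have h1 : ∀ᶠ y in 𝓝[R.Om] x, y ∈ Metric.ball x δ :=
        mem_nhdsWithin_of_mem_nhds (Metric.ball_mem_nhds x hδ)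
      filter_upwards [h1, self_mem_nhdsWithin] with y hy hyO
      rw [dist_eq_norm, dist_eq_norm]
      have h2 := hL (φ y) ((hs y hyO).mono (subset_univ _)) (by
        rw [h0 y hyO, ← dist_eq_norm]
        exact hy) t ht
      rw [h0 y hyO] at h2
      exact h2
    rw [ContinuousWithinAt, tendsto_iff_dist_tendsto_zero]
    refine squeeze_zero' (Eventually.of_forall fun _ => dist_nonneg) hbd ?_
    have h3 : Tendsto (fun y => C * dist y x) (𝓝[R.Om] x) (𝓝 (C * dist x x)) := by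
      refine (Continuous.tendsto ?_ x).mono_left nhdsWithin_le_nhds
      fun_prop
    simpa using h3

end Srt

end Pool.Agent.helper68.B2
end -- module helper26/FLW

section -- module helper25/SH2
/-! # MP_b2b189_gt: wave G, module SH2: `μ < ν` uniformly on the components of `Om` -/

set_option autoImplicit false

namespace Pool.Agent.helper68.B2

open scoped ContDiff Topology Matrix
open Matrix Set Filter
open Pool.Agent.helper25.B2 (Sol)

namespace Srt

variable {S : Geo} (R : Srt S)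

theorem mu_lt_nu {x₀ x y : E4} (hx : x ∈ connectedComponentIn R.Om x₀)
    (hy : y ∈ connectedComponentIn R.Om x₀) : R.μ x < R.ν y := by
  obtain ⟨Φ, h0, hsol, -, -, -⟩ := R.exists_flow
  have hxO := connectedComponentIn_subset R.Om x₀ hx
  have hyO := connectedComponentIn_subset R.Om x₀ hy
  obtain ⟨r, hr⟩ := R.shape h0 hsol hx hy
  have h1 := hr (-r)
  rw [neg_add_cancel, h0 x hxO] at h1
  have h2 := (R.curve_const ordConnected_univ (hsol y hyO) (mem_univ (-r)) (mem_univ 0)).2.1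
  simp only [h0 y hyO] at h2
  rw [← h1, ← h2]
  exact ((hsol y hyO) (-r) (mem_univ _)).1.2

end Srt

end Pool.Agent.helper68.B2
end -- module helper25/SH2

section -- module helper68/G1
/-! # MP_b2b189_gt, b2:G1 -/

set_option autoImplicit false

namespace Pool.Agent.helper68.B2

open scoped ContDiff Topology Matrix
open Matrix Set Filter
open Pool.Agent.helper25.B2 (Sol)

namespace Srt

variable {S : Geo} (R : Srt S)

theorem G1_isOpen_Om : IsOpen R.Om := by
  have h := (R.cν.sub R.cμ).isOpen_inter_preimage isOpen_compl_singleton (isOpen_Ioi (a := (0 : ℝ)))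
  convert h using 1
  ext x
  simp [Om]

theorem G1_at {f : E4 → ℝ} (hf : ContinuousOn f {0}ᶜ) {x : E4} (hx : x ≠ 0) : ContinuousAt f x :=
  hf.continuousAt (isOpen_compl_singleton.mem_nhds hx)

/-- components are relatively closed -/
theorem G1_closed {x₀ y : E4} (hy : y ∈ R.Om) (hc : y ∈ closure (connectedComponentIn R.Om x₀)) :
    y ∈ connectedComponentIn R.Om x₀ := by
  have ho : IsOpen (connectedComponentIn R.Om y) := R.G1_isOpen_Om.connectedComponentIn
  have hm : y ∈ connectedComponentIn R.Om y := mem_connectedComponentIn hy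
  obtain ⟨w, hw1, hw2⟩ := mem_closure_iff.mp hc _ ho hm
  rw [connectedComponentIn_eq hw2, ← connectedComponentIn_eq hw1]
  exact hm

/-- orbits stay in the component -/
theorem G1_orbit {x₀ x : E4} (hx : x ∈ connectedComponentIn R.Om x₀) {γ : ℝ → E4}
    (h0 : γ 0 = x) (hγ : Sol R.X R.Om γ univ) (t : ℝ) : γ t ∈ connectedComponentIn R.Om x₀ := by
  have hpre : IsPreconnected (γ '' univ) := isPreconnected_univ.image γ hγ.continuousOn
  have hsub : γ '' univ ⊆ R.Om := by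
    rintro _ ⟨s, -, rfl⟩
    exact (hγ s (mem_univ _)).1
  have h1 := hpre.subset_connectedComponentIn (x := x) ⟨0, mem_univ _, h0⟩ hsub
  rw [connectedComponentIn_eq hx]
  exact h1 ⟨t, mem_univ _, rfl⟩

/-- the estimate near a boundary point -/
theorem G1_limit {z : E4} (hz : z ≠ 0) (hzO : z ∉ R.Om) {Φ : ℝ → E4 → E4}
    (hΦ0 : ∀ x ∈ R.Om, Φ 0 x = x) (hΦ : ∀ x ∈ R.Om, Sol R.X R.Om (fun t => Φ t x) univ)
    {q : ℕ → E4} (hqO : ∀ k, q k ∈ R.Om) (hq : Tendsto q atTop (𝓝 z)) (t : ℝ) :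
    Tendsto (fun k => R.μ (Φ t (q k))) atTop (𝓝 (R.μ z)) := by
  have hμν : R.μ z = R.ν z := by
    by_contra h
    exact hzO ⟨hz, lt_of_le_of_ne (R.le₁ z hz) h⟩
  have tμ : Tendsto (fun k => R.μ (q k)) atTop (𝓝 (R.μ z)) := (G1_at R.cμ hz).tendsto.comp hq
  have tν : Tendsto (fun k => R.ν (q k)) atTop (𝓝 (R.ν z)) := (G1_at R.cν hz).tendsto.comp hq
  have tρ : Tendsto (fun k => R.ρ (q k)) atTop (𝓝 (R.ρ z)) := (G1_at R.cρ hz).tendsto.comp hq
  have hne : ∀ k s, Φ s (q k) ≠ 0 := fun k s => (hΦ _ (hqO k) s (mem_univ _)).1.1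
  have hconst : ∀ k s, ‖Φ s (q k)‖ = ‖q k‖ ∧ R.ν (Φ s (q k)) = R.ν (q k) ∧
      R.ρ (Φ s (q k)) = R.ρ (q k) := by
    intro k s
    have := R.curve_const ordConnected_univ (hΦ _ (hqO k)) (mem_univ s) (mem_univ (0 : ℝ))
    simpa only [hΦ0 _ (hqO k)] using this
  rcases (R.le₂ z hz).eq_or_lt with hρ | hρ
  · -- triple point
    obtain ⟨C, hC, hCE⟩ := R.CE_glob
    have hub : ∀ k, R.ρ (q k) - R.μ (Φ t (q k)) ≤
        (R.ρ (q k) - R.μ (q k)) * Real.exp (2 * C * |t - 0|) := by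
      intro k
      have := R.curve_gronwall ordConnected_univ (hΦ _ (hqO k)) (w := R.ρ (q k)) hC
        (fun s _ => by
          rw [← (hconst k s).2.2]
          exact (R.le₁ _ (hne k s)).trans (R.le₂ _ (hne k s)))
        (fun s _ => by
          rw [← (hconst k s).2.2]
          exact hCE _ (hne k s)) (mem_univ (0 : ℝ)) (mem_univ t)
      simpa only [hΦ0 _ (hqO k)] using this
    have hlb : ∀ k, 0 ≤ R.ρ (q k) - R.μ (Φ t (q k)) := by
      intro k
      rw [← (hconst k t).2.2]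
      linarith [R.le₁ _ (hne k t), R.le₂ _ (hne k t)]
    have hlim : Tendsto (fun k => R.ρ (q k) - R.μ (Φ t (q k))) atTop (𝓝 0) := by
      refine squeeze_zero hlb hub ?_
      have := (tρ.sub tμ).mul_const (Real.exp (2 * C * |t - 0|))
      rwa [← hρ, ← hμν, sub_self, zero_mul] at this
    have := tρ.sub hlim
    simpa [← hρ, ← hμν] using this
  · -- double point
    obtain ⟨C, hC, hCE⟩ := R.CE_glob_pair (δ := (R.ρ z - R.ν z) / 2) (by linarith)
    have hev : ∀ᶠ k in atTop, (R.ρ z - R.ν z) / 2 ≤ R.ρ (q k) - R.ν (q k) := by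
      have := (tρ.sub tν).eventually (lt_mem_nhds (a := (R.ρ z - R.ν z) / 2) (by linarith))
      filter_upwards [this] with k hk using hk.le
    have hub : ∀ᶠ k in atTop, R.ν (q k) - R.μ (Φ t (q k)) ≤
        (R.ν (q k) - R.μ (q k)) * Real.exp (2 * C * |t - 0|) := by
      filter_upwards [hev] with k hk
      have := R.curve_gronwall ordConnected_univ (hΦ _ (hqO k)) (w := R.ν (q k)) hC
        (fun s _ => by
          rw [← (hconst k s).2.1]
          exact R.le₁ _ (hne k s))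
        (fun s _ => by
          have h1 := hCE _ (hne k s) (by rw [(hconst k s).2.1, (hconst k s).2.2]; exact hk)
          rwa [(hconst k s).2.1] at h1) (mem_univ (0 : ℝ)) (mem_univ t)
      simpa only [hΦ0 _ (hqO k)] using this
    have hlb : ∀ᶠ k in atTop, 0 ≤ R.ν (q k) - R.μ (Φ t (q k)) := by
      refine Eventually.of_forall fun k => ?_
      rw [← (hconst k t).2.1]
      linarith [R.le₁ _ (hne k t)]
    have hlim : Tendsto (fun k => R.ν (q k) - R.μ (Φ t (q k))) atTop (𝓝 0) := by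
      refine squeeze_zero' hlb hub ?_
      have := (tν.sub tμ).mul_const (Real.exp (2 * C * |t - 0|))
      rwa [← hμν, sub_self, zero_mul] at this
    have := tν.sub hlim
    simpa [← hμν] using this

theorem G1 {x₀ z : E4} (hx₀ : x₀ ∈ R.Om) (hz : z ≠ 0) (hzc : z ∈ closure (connectedComponentIn R.Om x₀))
    (hzO : z ∉ R.Om) :
    (∀ y ∈ connectedComponentIn R.Om x₀, R.μ y = R.μ z) ∨
      (∀ y ∈ connectedComponentIn R.Om x₀, R.ν y = R.μ z) := by
  have hsubO : connectedComponentIn R.Om x₀ ⊆ R.Om := connectedComponentIn_subset _ _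
  obtain ⟨q, hqV, hq⟩ := mem_closure_iff_seq_limit.mp hzc
  have tμ : Tendsto (fun k => R.μ (q k)) atTop (𝓝 (R.μ z)) := (G1_at R.cμ hz).tendsto.comp hq
  have hle : ∀ y ∈ connectedComponentIn R.Om x₀, R.μ z ≤ R.ν y := fun y hy =>
    le_of_tendsto tμ (Eventually.of_forall fun k => (R.mu_lt_nu (hqV k) hy).le)
  by_cases hall : ∀ y ∈ connectedComponentIn R.Om x₀, R.ν y = R.μ z
  · exact Or.inr hall
  left
  push Not at hall
  obtain ⟨y, hy, hyne⟩ := hall
  have hylt : R.μ z < R.ν y := lt_of_le_of_ne (hle y hy) (Ne.symm hyne)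
  obtain ⟨Φ, hΦ0, hΦ, hΦg, -, hΦc⟩ := R.exists_flow
  have hyO := hsubO hy
  choose r hr using fun k => R.shape hΦ0 hΦ hy (hqV k)
  have hyk : ∀ k, Φ (r k) y ∈ R.Om := fun k => (hΦ y hyO (r k) (mem_univ _)).1
  have hμk : ∀ k t, R.μ (Φ t (q k)) = R.μ (Φ t (Φ (r k) y)) := by
    intro k t
    rw [hΦg y hyO, hr k t]
  have hcst : ∀ k, ‖Φ (r k) y‖ = ‖y‖ ∧ R.ν (Φ (r k) y) = R.ν y := by
    intro k
    have := R.curve_const ordConnected_univ (hΦ y hyO) (mem_univ (r k)) (mem_univ (0 : ℝ))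
    simp only [hΦ0 y hyO] at this
    exact ⟨this.1, this.2.1⟩
  obtain ⟨y', hy'S, φ, hφ, hlim⟩ := (isCompact_sphere (0 : E4) ‖y‖).tendsto_subseq
    (x := fun k => Φ (r k) y) (fun k => by simp [(hcst k).1])
  have hy'0 : y' ≠ 0 := by
    rintro rfl
    have : ‖y‖ = 0 := by simpa using hy'S.symm
    exact hyO.1 (norm_eq_zero.mp this)
  have hlim' : Tendsto (fun k => Φ (r (φ k)) y) atTop (𝓝 y') := hlim
  have hqφ : ∀ t, Tendsto (fun k => R.μ (Φ t (q (φ k)))) atTop (𝓝 (R.μ z)) := fun t =>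
    (R.G1_limit hz hzO hΦ0 hΦ (fun k => hsubO (hqV k)) hq t).comp hφ.tendsto_atTop
  have hμy' : R.μ y' = R.μ z := by
    have h1 : Tendsto (fun k => R.μ (Φ (r (φ k)) y)) atTop (𝓝 (R.μ y')) :=
      (G1_at R.cμ hy'0).tendsto.comp hlim'
    have h2 := hqφ 0
    have h3 : (fun k => R.μ (Φ 0 (q (φ k)))) = fun k => R.μ (Φ (r (φ k)) y) := by
      funext k
      rw [hμk, hΦ0 _ (hyk _)]
    rw [h3] at h2
    exact tendsto_nhds_unique h1 h2
  have hνy' : R.ν y' = R.ν y := by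
    have h1 : Tendsto (fun k => R.ν (Φ (r (φ k)) y)) atTop (𝓝 (R.ν y')) :=
      (G1_at R.cν hy'0).tendsto.comp hlim'
    have h3 : (fun k => R.ν (Φ (r (φ k)) y)) = fun _ => R.ν y := by
      funext k
      exact (hcst _).2
    rw [h3] at h1
    exact tendsto_nhds_unique h1 tendsto_const_nhds
  have hy'O : y' ∈ R.Om := ⟨hy'0, by rw [hμy', hνy']; exact hylt⟩
  have hy'V : y' ∈ connectedComponentIn R.Om x₀ := by
    apply R.G1_closed hy'O
    refine mem_closure_of_tendsto hlim' (Eventually.of_forall fun k => ?_)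
    exact R.G1_orbit hy (hΦ0 y hyO) (hΦ y hyO) _
  have hflow : ∀ t, R.μ (Φ t y') = R.μ z := by
    intro t
    have h1 : Tendsto (fun k => Φ t (Φ (r (φ k)) y)) atTop (𝓝 (Φ t y')) :=
      (((hΦc t).continuousAt (R.G1_isOpen_Om.mem_nhds hy'O)).tendsto).comp hlim'
    have h2 : Tendsto (fun k => R.μ (Φ t (Φ (r (φ k)) y))) atTop (𝓝 (R.μ (Φ t y'))) :=
      (G1_at R.cμ (hΦ y' hy'O t (mem_univ _)).1.1).tendsto.comp h1
    have h3 : (fun k => R.μ (Φ t (Φ (r (φ k)) y))) = fun k => R.μ (Φ t (q (φ k))) := by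
      funext k
      rw [hμk]
    rw [h3] at h2
    exact tendsto_nhds_unique h2 (hqφ t)
  intro x hx
  obtain ⟨s, hs⟩ := R.shape hΦ0 hΦ hy'V hx
  have := hs 0
  rw [hΦ0 x (hsubO hx), hflow] at this
  exact this

/-- a component has a boundary point if there is a collision -/
theorem exists_boundary (hN : ∃ x, x ≠ 0 ∧ R.μ x = R.ν x) {x₀ : E4} (hx₀ : x₀ ∈ R.Om) :
    ∃ z, z ≠ 0 ∧ z ∈ closure (connectedComponentIn R.Om x₀) ∧ z ∉ R.Om := by
  by_contra hcon
  push Not at hcon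
  have hVo : IsOpen (connectedComponentIn R.Om x₀) := R.G1_isOpen_Om.connectedComponentIn
  have hsub : ({0}ᶜ : Set E4) ⊆ connectedComponentIn R.Om x₀ ∪ (closure (connectedComponentIn R.Om x₀))ᶜ := by
    intro z hz
    by_cases hc : z ∈ closure (connectedComponentIn R.Om x₀)
    · exact Or.inl (R.G1_closed (hcon z hz hc) hc)
    · exact Or.inr hc
  have hdisj : ({0}ᶜ : Set E4) ∩ (connectedComponentIn R.Om x₀ ∩ (closure (connectedComponentIn R.Om x₀))ᶜ) = ∅ := by
    ext z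
    simp only [mem_inter_iff, mem_compl_iff, mem_empty_iff_false, iff_false, not_and, not_not]
    intro _ h1
    exact subset_closure h1
  rcases isPreconnected_iff_subset_of_disjoint.mp isPreconnected_compl_zero _ _ hVo
    isClosed_closure.isOpen_compl hsub hdisj with h | h
  · obtain ⟨x, hx, hxe⟩ := hN
    have := (connectedComponentIn_subset _ _ (h hx)).2
    rw [hxe] at this
    exact lt_irrefl _ this
  · exact h hx₀.1 (subset_closure (mem_connectedComponentIn hx₀))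

end Srt

end Pool.Agent.helper68.B2
end -- module helper68/G1
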