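import Mathlib
import Pool.Agent.helper25.B2.GDefs
import Pool.Agent.helper25.B2.TL2
import Pool.Agent.helper25.B2.SH
import Pool.Agent.helper25.B2.TC
import Pool.Agent.helper68.B2.TDa

/-! # B2: merged modules helper23/CH, helper23/CA, helper68/TD -/

section -- module helper23/CH
/-! # MP_b2b189_gt: the continuous function `chat` -/

set_option autoImplicit false

namespace Pool.Agent.helper68.B2

open scoped ContDiff Topology Matrix
open Matrix Set Filter

namespace Srt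

variable {S : Geo} (R : Srt S)

theorem CH_isOpen_Om : IsOpen R.Om := by
  have h0 : IsOpen ({0}ᶜ : Set E4) := isOpen_compl_singleton
  have h1 : ContinuousOn (fun x => R.ν x - R.μ x) ({0}ᶜ : Set E4) := R.cν.sub R.cμ
  have h2 := h1.isOpen_inter_preimage h0 (isOpen_Ioi (a := (0 : ℝ)))
  have h3 : R.Om = {0}ᶜ ∩ (fun x => R.ν x - R.μ x) ⁻¹' Ioi 0 := by
    ext x
    simp [Om]
  rw [h3]
  exact h2

theorem CH_mem_Om {x : E4} : x ∈ R.Om ↔ x ≠ 0 ∧ R.μ x < R.ν x := Iff.rfl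

theorem CH_isOpen_comp (x : E4) : IsOpen (connectedComponentIn R.Om x) :=
  R.CH_isOpen_Om.connectedComponentIn

theorem chat_mem {x : E4} : R.chat x = R.μ x ∨ R.chat x = R.ν x := by
  unfold chat
  split_ifs <;> simp

theorem CH_chat_eq {x : E4} (h : R.μ x = R.ν x) : R.chat x = R.μ x := by
  unfold chat
  rw [if_pos h]

theorem CH_chat_const {x : E4} (h : ∀ y ∈ connectedComponentIn R.Om x, R.μ y = R.μ x) :
    R.chat x = R.μ x := by
  unfold chat
  rw [if_pos h]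
  simp

theorem CH_chat_not {x : E4} (h1 : R.μ x ≠ R.ν x)
    (h : ¬ ∀ y ∈ connectedComponentIn R.Om x, R.μ y = R.μ x) :
    R.chat x = R.ν x := by
  unfold chat
  rw [if_neg h, if_neg h1]

/-- if `mu` is not constant on the component, then `nu` is constant -/
theorem CH_nu_const (hN : ∃ x, x ≠ 0 ∧ R.μ x = R.ν x) {x : E4} (hx : x ∈ R.Om)
    (h : ¬ ∀ y ∈ connectedComponentIn R.Om x, R.μ y = R.μ x) :
    ∃ z, z ≠ 0 ∧ z ∈ closure (connectedComponentIn R.Om x) ∧ z ∉ R.Om ∧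
      ∀ y ∈ connectedComponentIn R.Om x, R.ν y = R.μ z := by
  obtain ⟨z, hz0, hzc, hzO⟩ := R.exists_boundary hN hx
  refine ⟨z, hz0, hzc, hzO, ?_⟩
  rcases R.G1 hx hz0 hzc hzO with h1 | h1
  · exact absurd (fun y hy => (h1 y hy).trans (h1 x (mem_connectedComponentIn hx)).symm) h
  · exact h1

theorem chat_locconst (hN : ∃ x, x ≠ 0 ∧ R.μ x = R.ν x) {x : E4} (hx : x ∈ R.Om) :
    ∀ᶠ y in 𝓝 x, R.chat y = R.chat x := by
  have hxV : x ∈ connectedComponentIn R.Om x := mem_connectedComponentIn hx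
  have hV : connectedComponentIn R.Om x ∈ 𝓝 x := (R.CH_isOpen_comp x).mem_nhds hxV
  filter_upwards [hV] with y hy
  have hyc : connectedComponentIn R.Om x = connectedComponentIn R.Om y :=
    connectedComponentIn_eq hy
  by_cases h : ∀ y' ∈ connectedComponentIn R.Om x, R.μ y' = R.μ x
  · rw [R.CH_chat_const h, R.CH_chat_const (x := y), h y hy]
    intro y' hy'
    rw [← hyc] at hy'
    rw [h y' hy', h y hy]
  · obtain ⟨z, hz0, hzc, hzO, hzn⟩ := R.CH_nu_const hN hx h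
    have hyO : y ∈ R.Om := connectedComponentIn_subset _ _ hy
    rw [R.CH_chat_not (ne_of_lt hx.2) h, R.CH_chat_not (x := y) (ne_of_lt hyO.2), hzn y hy,
      hzn x hxV]
    intro h'
    apply h
    intro y' hy'
    have h1 := h' y' (hyc ▸ hy')
    have h2 := h' x (hyc ▸ hxV)
    rw [h1, h2]

theorem chat_continuous (hN : ∃ x, x ≠ 0 ∧ R.μ x = R.ν x) : ContinuousOn R.chat {0}ᶜ := by
  intro x hx
  have hx0 : x ≠ 0 := hx
  have hn : ({0}ᶜ : Set E4) ∈ 𝓝 x := isOpen_compl_singleton.mem_nhds hx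
  apply ContinuousAt.continuousWithinAt
  by_cases h : x ∈ R.Om
  · have h1 := R.chat_locconst hN h
    exact (continuousAt_const (y := R.chat x)).congr (h1.mono fun y hy => hy.symm)
  · have he : R.μ x = R.ν x := by
      by_contra hne
      exact h ⟨hx0, lt_of_le_of_ne (R.le₁ x hx0) hne⟩
    have hc : R.chat x = R.μ x := R.CH_chat_eq he
    have hμ : Tendsto R.μ (𝓝 x) (𝓝 (R.chat x)) := by
      rw [hc]; exact R.cμ.continuousAt hn
    have hν : Tendsto R.ν (𝓝 x) (𝓝 (R.chat x)) := by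
      rw [hc, he]; exact R.cν.continuousAt hn
    refine tendsto_of_tendsto_of_tendsto_of_le_of_le' hμ hν ?_ ?_
    · filter_upwards [hn] with y hy
      rcases R.chat_mem (x := y) with h1 | h1
      · rw [h1]
      · rw [h1]; exact R.le₁ y hy
    · filter_upwards [hn] with y hy
      rcases R.chat_mem (x := y) with h1 | h1
      · rw [h1]; exact R.le₁ y hy
      · rw [h1]

theorem CH_ray {x : E4} (hx : x ∈ R.Om) {t : ℝ} (ht : 0 < t) :
    t • x ∈ connectedComponentIn R.Om x := by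
  have h1 : IsPreconnected ((fun s : ℝ => s • x) '' Ioi 0) :=
    (isPreconnected_Ioi).image _ (continuous_id.smul continuous_const).continuousOn
  have h2 : (fun s : ℝ => s • x) '' Ioi 0 ⊆ R.Om := by
    rintro _ ⟨s, hs, rfl⟩
    have hs' : (0 : ℝ) < s := hs
    refine ⟨smul_ne_zero hs'.ne' hx.1, ?_⟩
    show R.μ (s • x) < R.ν (s • x)
    rw [R.hμ s hs' x, R.hν s hs' x]
    exact hx.2
  exact h1.subset_connectedComponentIn ⟨1, by simp, by simp⟩ h2 ⟨t, ht, rfl⟩

theorem chat_hom : Hom R.chat := by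
  intro t ht x
  by_cases hx0 : x = 0
  · simp [hx0]
  by_cases he : R.μ x = R.ν x
  · rw [R.CH_chat_eq he, R.CH_chat_eq, R.hμ t ht x]
    rw [R.hμ t ht x, R.hν t ht x, he]
  have hx : x ∈ R.Om := ⟨hx0, lt_of_le_of_ne (R.le₁ x hx0) he⟩
  have hc : connectedComponentIn R.Om x = connectedComponentIn R.Om (t • x) :=
    connectedComponentIn_eq (R.CH_ray hx ht)
  unfold chat
  rw [R.hμ t ht x, R.hν t ht x, ← hc]

end Srt

end Pool.Agent.helper68.B2
end -- module helper23/CH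

section -- module helper23/CA
/-! # MP_b2b189_gt: the value of `chat` is attained by `mu` -/

set_option autoImplicit false

namespace Pool.Agent.helper68.B2

open scoped ContDiff Topology Matrix
open Matrix Set Filter
open Pool.Agent.helper25.B2 (Sol)

namespace Srt

variable {S : Geo} (R : Srt S)

theorem CA_compact {x : E4} (hx : x ≠ 0) :
    IsCompact {y : E4 | ‖y‖ = ‖x‖ ∧ R.ν y = R.ν x ∧ R.ρ y = R.ρ x} := by
  have hs : IsCompact (Metric.sphere (0 : E4) ‖x‖) := isCompact_sphere _ _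
  have hsub : Metric.sphere (0 : E4) ‖x‖ ⊆ {0}ᶜ := by
    intro y hy h0
    have h0' : y = 0 := h0
    rw [h0'] at hy
    simp at hy
    exact hx (norm_eq_zero.1 hy.symm)
  have h1 : ContinuousOn (fun y => (R.ν y, R.ρ y)) (Metric.sphere (0 : E4) ‖x‖) :=
    (R.cν.mono hsub).prodMk (R.cρ.mono hsub)
  have h2 := h1.preimage_isClosed_of_isClosed Metric.isClosed_sphere
    (isClosed_singleton (x := (R.ν x, R.ρ x)))
  have h3 : {y : E4 | ‖y‖ = ‖x‖ ∧ R.ν y = R.ν x ∧ R.ρ y = R.ρ x} =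
      Metric.sphere (0 : E4) ‖x‖ ∩ (fun y => (R.ν y, R.ρ y)) ⁻¹' {(R.ν x, R.ρ x)} := by
    ext y
    simp [Prod.ext_iff]
  rw [h3]
  exact hs.of_isClosed_subset h2 inter_subset_left

theorem chat_attain (hN : ∃ x, x ≠ 0 ∧ R.μ x = R.ν x) {x : E4} (hx : x ≠ 0) :
    ∃ y, y ≠ 0 ∧ R.μ y = R.chat x ∧ R.ν y = R.ν x ∧ R.ρ y = R.ρ x := by
  by_cases he : R.μ x = R.ν x
  · exact ⟨x, hx, (R.CH_chat_eq he).symm, rfl, rfl⟩
  by_cases h : ∀ y ∈ connectedComponentIn R.Om x, R.μ y = R.μ x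
  · exact ⟨x, hx, (R.CH_chat_const h).symm, rfl, rfl⟩
  have hxO : x ∈ R.Om := ⟨hx, lt_of_le_of_ne (R.le₁ x hx) he⟩
  obtain ⟨z, hz0, hzc, hzO, hzn⟩ := R.CH_nu_const hN hxO h
  have hxV : x ∈ connectedComponentIn R.Om x := mem_connectedComponentIn hxO
  rw [R.CH_chat_not he h]
  obtain ⟨Φ, hΦ0, hΦ, -, -, -⟩ := R.exists_flow
  set K : Set E4 := {y : E4 | ‖y‖ = ‖x‖ ∧ R.ν y = R.ν x ∧ R.ρ y = R.ρ x} with hK
  have hKc : IsCompact K := R.CA_compact hx
  have hK0 : K ⊆ {0}ᶜ := by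
    intro y hy h0
    have h0' : y = 0 := h0
    have h1 := hy.1
    rw [h0', norm_zero] at h1
    exact hx (norm_eq_zero.1 h1.symm)
  have hμK : IsCompact (R.μ '' K) := hKc.image_of_continuousOn (R.cμ.mono hK0)
  have hsub : R.μ '' connectedComponentIn R.Om x ⊆ R.μ '' K := by
    rintro _ ⟨q, hq, rfl⟩
    obtain ⟨r, hr⟩ := R.shape hΦ0 hΦ hxV hq
    have h1 := hr 0
    rw [hΦ0 q (connectedComponentIn_subset _ _ hq), zero_add] at h1
    refine ⟨Φ r x, ?_, h1.symm⟩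
    have h2 := R.curve_const (I := univ) ordConnected_univ (hΦ x hxO) (mem_univ r) (mem_univ 0)
    rw [hΦ0 x hxO] at h2
    exact h2
  have hcl : R.μ z ∈ closure (R.μ '' connectedComponentIn R.Om x) := by
    have hcont : ContinuousAt R.μ z := R.cμ.continuousAt (isOpen_compl_singleton.mem_nhds hz0)
    exact mem_closure_image hcont hzc
  have hfin : R.μ z ∈ R.μ '' K := by
    have := closure_mono hsub hcl
    rwa [hμK.isClosed.closure_eq] at this
  obtain ⟨y, hy, hyz⟩ := hfin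
  refine ⟨y, hK0 hy, ?_, hy.2.1, hy.2.2⟩
  rw [hyz, hzn x hxV]

end Srt

end Pool.Agent.helper68.B2
end -- module helper23/CA

section -- module helper68/TD
/-! # MP_b2b189_gt, b2:TD: the dichotomy for an ordered triple of roots -/

set_option autoImplicit false

namespace Pool.Agent.helper68.B2

open scoped ContDiff Topology Matrix
open Matrix Set Filter

theorem tri_dich {S : Geo} (hNC : S.NC) {R : Roots S} (T : Tri S R) :
    ∃ c : E4 → ℝ, ContinuousOn c {0}ᶜ ∧ Hom c ∧ (∀ x, x ≠ 0 → c x = T.μ x ∨ c x = T.ν x) ∧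
      (∀ x, x ≠ 0 → T.μ x < T.ν x → ∀ᶠ y in 𝓝 x, c y = c x) ∧
      ∀ x, x ≠ 0 → ∃ y, y ≠ 0 ∧ T.μ y = c x ∧ T.ν y = T.ν x ∧ T.ρ y = T.ρ x := by
  obtain ⟨Q, h1, h2, h3⟩ := T.toSrt hNC
  have hN : ∃ x, x ≠ 0 ∧ Q.μ x = Q.ν x := by
    rw [h1, h2]
    exact T.exists_coll
  rw [← h1, ← h2, ← h3]
  exact ⟨Q.chat, Q.chat_continuous hN, Q.chat_hom, fun x _ => Q.chat_mem,
    fun x hx hlt => Q.chat_locconst hN ⟨hx, hlt⟩, fun x hx => Q.chat_attain hN hx⟩

end Pool.Agent.helper68.B2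
end -- module helper68/TD
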